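import Pool.Agent.J4H73.AQ.Ap

/-! The Goldbach form. -/

set_option autoImplicit false
set_option maxHeartbeats 4000000

open Finset Filter

namespace Pool.Agent.J4H73.AQ

open Pool.Agent.J4H73.CG Pool.Agent.J4H73.CP Pool.Agent

open Classical in
/-- the isolated Goldbach-Chen primes in a class -/
noncomputable def GG (δ c : ℝ) (N W r : ℕ) : Finset ℕ :=
  (Icc 1 N).filter (fun p : ℕ => (N : ℝ) / 4 < p ∧ p ≡ r [MOD W] ∧ p.Prime ∧
    Alm 2 ((N : ℝ) ^ (1 / 9 : ℝ)) (N - p) ∧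
    ∀ z : ℤ, |(z : ℝ) - p| ≤ c * rankin N → z ≠ p → ∃ q : ℕ, q.Prime ∧ (q : ℝ) ≤ (N : ℝ) ^ δ ∧ (q : ℤ) ∣ z)

open Classical in
theorem mem_GG (δ c : ℝ) (N W r p : ℕ) : p ∈ GG δ c N W r ↔ (1 ≤ p ∧ p ≤ N) ∧ (N : ℝ) / 4 < p ∧ p ≡ r [MOD W] ∧
    p.Prime ∧ Alm 2 ((N : ℝ) ^ (1 / 9 : ℝ)) (N - p) ∧
    ∀ z : ℤ, |(z : ℝ) - p| ≤ c * rankin N → z ≠ p → ∃ q : ℕ, q.Prime ∧ (q : ℝ) ≤ (N : ℝ) ^ δ ∧ (q : ℤ) ∣ z := by
  unfold GG
  rw [mem_filter, mem_Icc]

theorem pow_scale (C a b : ℝ) (hC : 0 < C) (hab : a < b) : ∀ᶠ X : ℝ in atTop, (C * X) ^ a ≤ X ^ b := by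
  filter_upwards [eventually_gt_atTop 0, (tendsto_rpow_atTop (show 0 < b - a by linarith)).eventually_ge_atTop
    (C ^ a)] with X hX h
  rw [Real.mul_rpow hC.le hX.le]
  calc C ^ a * X ^ a ≤ X ^ (b - a) * X ^ a := mul_le_mul_of_nonneg_right h (by positivity)
    _ = X ^ b := by rw [← Real.rpow_add hX]; congr 1; ring

theorem pow_scale2 (C D a b : ℝ) (hC : 0 < C) (hab : a < b) : ∀ᶠ X : ℝ in atTop, D * (C * X) ^ a ≤ X ^ b := by
  filter_upwards [pow_scale C a ((a + b) / 2) hC (by linarith), eventually_gt_atTop 0,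
    (tendsto_rpow_atTop (show 0 < (b - a) / 2 by linarith)).eventually_ge_atTop (|D|)] with X h1 h2 h3
  have h4 : 0 ≤ (C * X) ^ a := by positivity
  calc D * (C * X) ^ a ≤ |D| * (C * X) ^ a := mul_le_mul_of_nonneg_right (le_abs_self D) h4
    _ ≤ X ^ ((b - a) / 2) * X ^ ((a + b) / 2) := mul_le_mul h3 h1 h4 (by positivity)
    _ = X ^ b := by rw [← Real.rpow_add h2]; congr 1; ring

theorem adm_even (N : ℕ) (h2 : 2 ∣ N) (p : ℕ) (hp : p.Prime) :
    ∃ a : ℤ, ¬ (p : ℤ) ∣ a ∧ ¬ (p : ℤ) ∣ a + -(N : ℤ) := by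
  have hp1 : ¬ (p : ℤ) ∣ 1 := by
    intro h
    have := Int.natAbs_dvd_natAbs.2 h
    simp at this
    exact hp.one_lt.ne' this
  by_cases h : (p : ℤ) ∣ 1 + -(N : ℤ)
  · refine ⟨-1, fun h' => hp1 ((dvd_neg).1 h'), fun h' => ?_⟩
    have h3 : (p : ℤ) ∣ 2 := by
      have h4 := dvd_sub h h'
      have e : 1 + -(N : ℤ) - (-1 + -(N : ℤ)) = 2 := by ring
      rwa [e] at h4
    have h5 : p ∣ 2 := by exact_mod_cast h3
    have h6 : p = 2 := (Nat.prime_dvd_prime_iff_eq hp Nat.prime_two).1 h5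
    rw [h6] at h
    have h7 : ((2 : ℕ) : ℤ) ∣ (N : ℤ) := by exact_mod_cast h2
    push_cast at h h7
    omega
  · exact ⟨1, hp1, h⟩

theorem goldbachAP (δ : ℝ) (hδ : 0 < δ) : ∃ c : ℝ, 0 < c ∧ ∃ ρ : ℝ, 0 < ρ ∧ ∃ W r : ℕ → ℕ, ∀ (K : ℕ) (η : ℝ), 0 < η →
    ∃ B N₀ : ℕ, ∀ N : ℕ, N₀ ≤ N → 2 ∣ N → 0 < W N ∧ (W N : ℝ) ≤ (N : ℝ) ^ (1 / 700 : ℝ) ∧
      ρ * (N / W N * (W N / ((W N).totient * Real.log N)) ^ 2) ≤ ((GG δ c N (W N) (r N)).card : ℝ) ∧
      ∀ U ⊆ GG δ c N (W N) (r N), η * ((GG δ c N (W N) (r N)).card : ℝ) ≤ (U.card : ℝ) →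
        ∃ d : ℕ, 1 ≤ d ∧ (d : ℝ) ≤ (Real.log N) ^ B ∧
          (N : ℝ) ^ (49 / 50 : ℝ) ≤ ((U.filter (fun p => ∀ j ≤ K, p + j * (W N * d) ∈ U)).card : ℝ) := by
  obtain ⟨c, hc, ε₁, hε, hε4, hεδ, ρ, hρ, H1⟩ := sieveK 1 le_rfl δ hδ
  set E : ℝ := 2 * Real.exp (1 / 2) with hE
  have hEge : (3 : ℝ) < E := by
    have := Real.add_one_lt_exp (show (1 / 2 : ℝ) ≠ 0 by norm_num)
    rw [hE]
    linarith
  have hEle : E < 4 := by
    have h1 : Real.exp (1 / 2) ^ 2 = Real.exp 1 := by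
      rw [← Real.exp_nat_mul]
      norm_num
    have h2 := Real.exp_one_lt_d9
    have h3 : Real.exp (1 / 2) < 2 := by
      by_contra hcon
      push Not at hcon
      nlinarith
    rw [hE]
    linarith
  have hE0 : 0 < E := by linarith
  -- first stage: the set
  have stage : ∃ N₁ : ℕ, ∀ N : ℕ, N₁ ≤ N → 2 ∣ N → ∃ W r : ℕ, 0 < W ∧ (W : ℝ) ≤ (N : ℝ) ^ (1 / 700 : ℝ) ∧
      ((N : ℝ) / E) ^ (199 / 200 : ℝ) ≤ ((GG δ (c / 2) N W r).card : ℝ) ∧
      ρ * Ex (ε₁ / 3) ((N : ℝ) / E) W (fun _ : Fin 1 => -(N : ℤ)) ≤ ((GG δ (c / 2) N W r).card : ℝ) ∧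
      ρ / 4 * (N / W * (W / (W.totient * Real.log N)) ^ 2) ≤ ((GG δ (c / 2) N W r).card : ℝ) := by
    have evX : ∀ᶠ X : ℝ in atTop, (E * X) ^ (1 / 9 : ℝ) ≤ X ^ (12 / 100 : ℝ) ∧ c / 2 * rankin (E * X) ≤ X / 4 := by
      have t1 := Real.tendsto_log_atTop
      have t2 : Tendsto (fun y : ℝ => Real.log (Real.log y)) atTop atTop := t1.comp t1
      have hff := Pool.Agent.H312R2.RG.ev_ff c hc
      filter_upwards [pow_scale E (1 / 9) (12 / 100) hE0 (by norm_num), rankin_scale E (by linarith), RR_eq, hff,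
        t2.eventually_ge_atTop 1, Pool.Agent.H398R2.BV.ev_log 4 2 1 (by norm_num)] with X a2 a4 a5 a6 a7 a8
      refine ⟨a2, ?_⟩
      have hRR : c * CH.RR X ≤ (Real.log X) ^ 2 := by
        refine le_trans ?_ a6.1
        apply mul_le_mul_of_nonneg_left _ hc.le
        unfold CH.RR
        exact div_le_self a6.2.1 a7
      rw [a5] at hRR
      rw [Real.rpow_one] at a8
      calc c / 2 * rankin (E * X) ≤ c / 2 * (2 * rankin X) :=
            mul_le_mul_of_nonneg_left a4.2 (by positivity)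
        _ = c * rankin X := by ring
        _ ≤ _ := by linarith
    have tE : Tendsto (fun N : ℕ => (N : ℝ) / E) atTop atTop :=
      tendsto_natCast_atTop_atTop.atTop_div_const hE0
    obtain ⟨N₁, hN₁⟩ := eventually_atTop.1 (tE.eventually (((H1.and RR_eq).and (rankin_scale E (by linarith))).and
      (evX.and (eventually_ge_atTop 10))))
    refine ⟨N₁, fun N hN h2 => ?_⟩
    obtain ⟨⟨⟨g1, g2⟩, g3, g4⟩, ⟨g6, g8⟩, g9⟩ := hN₁ N hN
    set X : ℝ := N / E with hX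
    have hEX : E * X = N := by rw [hX]; field_simp
    rw [hEX] at g4 g6 g8
    have hXpos : 0 < X := by linarith
    have hX1 : 1 ≤ X := by linarith
    have hXN : X ≤ N := by
      rw [← hEX]
      nlinarith
    have hcastN : ((-(N : ℤ) : ℤ) : ℝ) = -(N : ℝ) := by push_cast; rfl
    obtain ⟨W, r, hW, hWX, T, hT, hTbig, hTlow, hTord⟩ := g1 (fun _ => -(N : ℤ)) (fun p hp => by
        obtain ⟨a, h3, h4⟩ := adm_even N h2 p hp
        exact ⟨a, h3, fun _ => h4⟩) (fun _ => by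
        rw [hcastN, abs_neg, Nat.abs_cast, ← hEX]
        nlinarith) 0 (HPs_refl X hX1 _ (by rw [hcastN, ← hEX, hE]))
    have hsub : T ⊆ GG δ (c / 2) N W r := by
      intro p hp
      obtain ⟨hpr, hp2, hp3, hp4, hp5, -, hp6⟩ := hT p hp
      have hp3X : (p : ℝ) ≤ 3 * X := (Nat.le_floor_iff (by positivity)).1 hp2
      have hpN : (p : ℝ) ≤ N := by
        rw [← hEX]
        nlinarith
      rw [mem_GG]
      refine ⟨⟨hp4.one_lt.le, by exact_mod_cast hpN⟩, ?_, hpr, hp4, ⟨?_, ?_⟩, ?_⟩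
      · refine lt_of_le_of_lt ?_ hp3
        rw [hX]
        exact div_le_div_of_nonneg_left (Nat.cast_nonneg N) hE0 hEle.le
      · have e : ((p : ℤ) + -(N : ℤ)).natAbs = ((N : ℤ) - p).natAbs := by
          rw [← Int.natAbs_neg]
          congr 1
          ring
        rw [← e]
        exact hp5.1
      · intro q hq hqd
        refine g6.trans (hp5.2 q hq ((dvd_natAbs_iff q _).2 ?_))
        have e : (p : ℤ) + -(N : ℤ) = -((N : ℤ) - p) := by ring
        rw [e, dvd_neg]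
        exact hqd
      · intro z hz1 hz2
        obtain ⟨q, hq1, hq2, hq3⟩ := hp6 (z - p) (by
          push_cast
          rw [g2]
          refine hz1.trans ?_
          calc c / 2 * rankin N ≤ c / 2 * (2 * rankin X) := mul_le_mul_of_nonneg_left g4 (by positivity)
            _ = _ := by ring) (sub_ne_zero.2 hz2) (by
          intro _ h4
          have h5 : (z : ℝ) - p = -(N : ℝ) := by exact_mod_cast h4
          rw [h5, abs_neg, abs_of_nonneg (Nat.cast_nonneg N)] at hz1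
          linarith)
        refine ⟨q, hq1, hq2.trans ?_, ?_⟩
        · calc X ^ (2 * (ε₁ / 3)) ≤ X ^ δ := Real.rpow_le_rpow_of_exponent_le hX1 (by linarith)
            _ ≤ (N : ℝ) ^ δ := Real.rpow_le_rpow hXpos.le hXN hδ.le
        · have : (p : ℤ) + (z - p) = z := by ring
          rwa [this] at hq3
    have hcard : (T.card : ℝ) ≤ ((GG δ (c / 2) N W r).card : ℝ) := by exact_mod_cast card_le_card hsub
    have hW0r : (0 : ℝ) < W := by exact_mod_cast hW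
    have hφ0 : (0 : ℝ) < W.totient := by exact_mod_cast Nat.totient_pos.2 hW
    have hlogX : 0 < Real.log X := Real.log_pos (by linarith)
    have hTord := hTord 2 (by norm_num) le_rfl (fun p hp => by
      refine (Zx_props _ p hp ?_).1
      obtain ⟨a, h3, h4⟩ := adm_even N h2 p hp
      exact ⟨a, h3, fun _ => h4⟩)
    refine ⟨W, r, hW, hWX.trans ?_, hTbig.trans hcard, hTlow.trans hcard, le_trans ?_ (hTord.trans hcard)⟩
    · calc X ^ (7 / 5000 : ℝ) ≤ X ^ (1 / 700 : ℝ) := Real.rpow_le_rpow_of_exponent_le hX1 (by norm_num)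
        _ ≤ (N : ℝ) ^ (1 / 700 : ℝ) := Real.rpow_le_rpow hXpos.le hXN (by norm_num)
    · have e1 : (W : ℝ) / (W.totient * Real.log N) ≤ W / (W.totient * Real.log X) := by
        apply div_le_div_of_nonneg_left hW0r.le (by positivity)
        exact mul_le_mul_of_nonneg_left (Real.log_le_log hXpos hXN) hφ0.le
      have hlogN : 0 ≤ Real.log N := Real.log_nonneg (by linarith)
      have e2 : (N : ℝ) ≤ 4 * X := by
        rw [← hEX]
        nlinarith
      calc ρ / 4 * ((N : ℝ) / W * (W / (W.totient * Real.log N)) ^ 2) ≤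
          ρ / 4 * ((4 * X) / W * (W / (W.totient * Real.log X)) ^ 2) := by gcongr
        _ = ρ * (X / W * (W / (W.totient * Real.log X)) ^ 2) := by ring
  obtain ⟨N₁, stage⟩ := stage
  choose! W r hWr using stage
  refine ⟨c / 2, by positivity, ρ / 4, by positivity, W, r, fun K η hη => ?_⟩
  -- second stage: the progressions
  obtain ⟨B, H3⟩ := engine K 2 (2 * ε₁ / 5) (9 * ε₁ / 25) (ρ * η) (by positivity) (by linarith) (by positivity)
  have t4 : Tendsto (fun N : ℕ => (N : ℝ) / 4) atTop atTop :=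
    tendsto_natCast_atTop_atTop.atTop_div_const (by norm_num)
  have hE4 : 0 < 4 / E := by positivity
  obtain ⟨N₂, hN₂⟩ := eventually_atTop.1 (t4.eventually ((H3.and (pow_scale (4 / E) (ε₁ / 3) (9 * ε₁ / 25) hE4
    (by linarith))).and ((pow_scale2 (E / 4) (1 / η) (497 / 500) (199 / 200) (by positivity) (by norm_num)).and
    ((pow_scale 4 (49 / 50) (99 / 100) (by norm_num) (by norm_num)).and
    ((pow_scale 4 (1 / 700) (1 / 600) (by norm_num) (by norm_num)).and (eventually_ge_atTop (1 : ℝ)))))))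
  have tE : Tendsto (fun N : ℕ => (N : ℝ) / E) atTop atTop :=
    tendsto_natCast_atTop_atTop.atTop_div_const hE0
  obtain ⟨N₃, hN₃⟩ := eventually_atTop.1 (tE.eventually ((pow_scale E (99 / 100) (199 / 200) hE0 (by norm_num)).and
    (pow_scale2 (E / 4) (1 / η) (497 / 500) (199 / 200) (by positivity) (by norm_num))))
  refine ⟨B, max N₁ (max N₂ N₃), fun N hN h2 => ?_⟩
  obtain ⟨g1, g2, g3, g4, g5⟩ := hWr N ((le_max_left _ _).trans hN) h2
  obtain ⟨⟨k1, k2⟩, -, k4, k5, k6⟩ := hN₂ N ((le_max_left _ _).trans ((le_max_right _ _).trans hN))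
  obtain ⟨l1, l2⟩ := hN₃ N ((le_max_right _ _).trans ((le_max_right _ _).trans hN))
  set X : ℝ := N / E with hX
  set X' : ℝ := N / 4 with hX'
  have hEX : E * X = N := by rw [hX]; field_simp
  have h4X : 4 * X' = N := by rw [hX']; ring
  have hEX' : E / 4 * X = X' := by rw [hX']; linarith
  have h4E : 4 / E * X' = X := by
    rw [hX, hX']
    field_simp
  rw [h4E] at k2
  rw [h4X] at k4 k5
  rw [hEX] at l1
  rw [hEX'] at l2
  have hX'0 : 0 < X' := by linarith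
  have hXX : X' ≤ X := by
    rw [hX, hX']
    exact div_le_div_of_nonneg_left (Nat.cast_nonneg N) hE0 hEle.le
  have hX'1 : 1 ≤ X' := k6
  have hNpos : (0 : ℝ) < N := by linarith
  set G := GG δ (c / 2) N (W N) (r N) with hG
  refine ⟨g1, g2, g5, fun U hU hUc => ?_⟩
  obtain ⟨d, hd1, hd2, hd3⟩ := k1 (W N) (r N) g1 (g2.trans k5) (Zx (fun _ : Fin 1 => -(N : ℤ))) (fun p hp _ _ =>
      Zx_props _ p hp (by
        obtain ⟨a, h3, h4⟩ := adm_even N h2 p hp
        exact ⟨a, h3, fun _ => h4⟩)) U (by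
    intro n hn
    have hnG := hU hn
    rw [hG] at hnG
    rw [mem_GG] at hnG
    obtain ⟨⟨m1, m2⟩, m3, m4, m5, m6, m7⟩ := hnG
    refine ⟨m4, Nat.le_floor ?_, m3, fun p hp _ hpX hmem => ?_⟩
    · have h5 : (n : ℝ) ≤ N := by exact_mod_cast m2
      linarith
    · rcases (mem_Zx _ p n hp.pos).1 hmem with h | ⟨j, h⟩
      · have h5 : p = n := (Nat.prime_dvd_prime_iff_eq hp m5).1 h
        have h6 : X' ^ (2 * ε₁ / 5) ≤ X' := by
          calc X' ^ (2 * ε₁ / 5) ≤ X' ^ (1 : ℝ) := Real.rpow_le_rpow_of_exponent_le hX'1 (by linarith)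
            _ = X' := Real.rpow_one X'
        rw [h5] at hpX
        linarith
      · have h5 : (p : ℤ) ∣ (N : ℤ) - n := by
          have e : (N : ℤ) - n = -((n : ℤ) + -(N : ℤ)) := by ring
          rw [e, dvd_neg]
          exact h
        have h6 := m6.2 p hp h5
        have h7 : X' ^ (2 * ε₁ / 5) < (N : ℝ) ^ (1 / 9 : ℝ) := by
          calc X' ^ (2 * ε₁ / 5) ≤ X' ^ (1 / 9 : ℝ) := Real.rpow_le_rpow_of_exponent_le hX'1 (by linarith)
            _ < (N : ℝ) ^ (1 / 9 : ℝ) := Real.rpow_lt_rpow hX'0.le (by linarith) (by norm_num)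
        linarith) (by
    refine le_trans ?_ hUc
    have h5 : η * (1 / η * X' ^ (497 / 500 : ℝ)) ≤ η * (G.card : ℝ) :=
      mul_le_mul_of_nonneg_left (l2.trans g3) hη.le
    have e : η * (1 / η * X' ^ (497 / 500 : ℝ)) = X' ^ (497 / 500 : ℝ) := by field_simp
    rwa [e] at h5) (by
    refine le_trans ?_ hUc
    have h5 := Ex_le (ε₁ / 3) (9 * ε₁ / 25) X X' hX'0 hXX k2 (W N) (fun _ : Fin 1 => -(N : ℤ)) (fun p hp => by
        obtain ⟨a, h3, h4⟩ := adm_even N h2 p hp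
        exact ⟨a, h3, fun _ => h4⟩)
    calc ρ * η * (X' / (W N) * ∏ p ∈ Pf (W N) ⌊X' ^ (9 * ε₁ / 25)⌋₊,
          (1 - ((Zx (fun _ : Fin 1 => -(N : ℤ)) p).card : ℝ) / p)) =
        η * (ρ * Ex (9 * ε₁ / 25) X' (W N) (fun _ : Fin 1 => -(N : ℤ))) := by unfold Ex; ring
      _ ≤ η * (ρ * Ex (ε₁ / 3) X (W N) (fun _ : Fin 1 => -(N : ℤ))) := by gcongr
      _ ≤ η * (G.card : ℝ) := mul_le_mul_of_nonneg_left g4 hη.le)
  refine ⟨d, hd1, hd2.trans ?_, k4.trans hd3⟩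
  exact pow_le_pow_left₀ (Real.log_nonneg hX'1) (Real.log_le_log hX'0 (by linarith)) B

end Pool.Agent.J4H73.AQ
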