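import Pool.Agent.J4H73.AQ.Low
import Pool.Agent.J4H73.AQ.P2K2

/-! Primes `p` in a class such that `p + x i0` has at most two prime factors, all `p + x j` are rough and all other
integers near by have a small prime factor: a positive proportion of the expected number. -/

set_option autoImplicit false
set_option maxHeartbeats 4000000

open Finset Filter

namespace Pool.Agent.J4H73.AQ

open Pool.Agent.H378R2 Pool.Agent.H378R2.LSBV Pool.Agent.N610.AP Pool.Agent.Y882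
open Pool.Agent.J4H73.BV Pool.Agent.J4H73.CH Pool.Agent.J4H73.CG Pool.Agent.J4H73.KT Pool.Agent.J4H73.CP
open Pool.Agent

/-- the good primes -/
def Gq {k : ℕ} (c ε₁ X : ℝ) (x : Fin k → ℤ) (i0 : Fin k) (n : ℕ) : Prop :=
  n ≤ ⌊3 * X⌋₊ ∧ X < n ∧ n.Prime ∧ CH.AP 2 (12 / 100) X ((n : ℤ) + x i0).natAbs ∧
    (∀ j, ∀ q : ℕ, q.Prime → (q : ℤ) ∣ n + x j → (⌊X⌋₊ : ℝ) ^ ε₁ ≤ q) ∧
    ∀ z : ℤ, |(z : ℝ)| ≤ c * CH.RR X → z ≠ 0 → (∀ j, z ≠ x j) →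
      ∃ q : ℕ, q.Prime ∧ (q : ℝ) ≤ X ^ (2 * (ε₁ / 3)) ∧ (q : ℤ) ∣ n + z

theorem sieveK (k : ℕ) (hk : 1 ≤ k) : ∀ δ₁ : ℝ, 0 < δ₁ → ∃ c : ℝ, 0 < c ∧ ∃ ε₁ : ℝ, 0 < ε₁ ∧ ε₁ ≤ 1 / 4 ∧
      ε₁ ≤ δ₁ / 2 ∧ ∃ ρ : ℝ, 0 < ρ ∧ ∀ᶠ X : ℝ in atTop, ∀ x : Fin k → ℤ,
      (∀ p : ℕ, p.Prime → ∃ a : ℤ, ¬ (p : ℤ) ∣ a ∧ ∀ j, ¬ (p : ℤ) ∣ a + x j) → (∀ j, |(x j : ℝ)| ≤ 9 * X) →
      ∀ i0 : Fin k, HPs (1 / 1000) (101 / 100000) X (x i0) → ∃ W r : ℕ, 0 < W ∧ (W : ℝ) ≤ X ^ (7 / 5000 : ℝ) ∧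
        ∃ T : Finset ℕ, (∀ n ∈ T, n ≡ r [MOD W] ∧ Gq c ε₁ X x i0 n) ∧ X ^ (199 / 200 : ℝ) ≤ (T.card : ℝ) ∧
        ρ * Ex (ε₁ / 3) X W x ≤ T.card ∧
        ∀ m : ℕ, 1 ≤ m → m ≤ k + 1 → (∀ p : ℕ, p.Prime → (Zx x p).card ≤ m) →
          ρ * (X / W * (W / (W.totient * Real.log X)) ^ m) ≤ T.card := by
  intro δ₁ hδ₁
  obtain ⟨c, hc, ε₁, hε, hε4, hεδ, ρ, hρ, H1⟩ := p2K2 k hk δ₁ hδ₁
  obtain ⟨c', hc', H2⟩ := convert_main k ε₁ hε (by linarith)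
  obtain ⟨cl, hcl, H3⟩ := Ex_lower k (ε₁ / 3) (by positivity) (by linarith) (k + 1)
  refine ⟨c, hc, ε₁, hε, hε4, hεδ, ρ * c' * min 1 cl, by positivity, ?_⟩
  filter_upwards [H1, H2, H3, eventually_gt_atTop 0, Real.tendsto_log_atTop.eventually_gt_atTop 0]
    with X H1 H2 H3 hX0 hL0
  intro x hadm hx i0 hHP
  obtain ⟨W, ps, r, hW, hWX, hWp, T, hT, hTbig, hTlow⟩ := H1 x hadm hx i0 hHP
  have h2 := H2 W ps hW hWp x
  have h3 := H3 W hW hWp x hadm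
  have hcm : ∀ p : ℕ, p.Prime → (Zx x p).card ≤ k + 1 := fun p hp => (Zx_props x p hp (hadm p hp)).1
  have hlow : ρ * c' * Ex (ε₁ / 3) X W x ≤ T.card := by
    unfold Ex
    calc ρ * c' * (X / W * ∏ p ∈ Pf W ⌊X ^ (ε₁ / 3)⌋₊, (1 - ((Zx x p).card : ℝ) / p)) =
        ρ * (c' * (X / W * ∏ p ∈ Pf W ⌊X ^ (ε₁ / 3)⌋₊, (1 - ((Zx x p).card : ℝ) / p))) := by ring
      _ ≤ _ := mul_le_mul_of_nonneg_left h2 hρ.le
      _ ≤ _ := hTlow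
  have hEx0 : 0 ≤ Ex (ε₁ / 3) X W x := by
    refine le_trans ?_ (h3 (k + 1) (by omega) le_rfl hcm)
    positivity
  refine ⟨W, r, hW, hWX, T, fun n hn => ⟨(hT n hn).1, (hT n hn).2⟩, hTbig, ?_, fun m hm1 hm2 hmc => ?_⟩
  · refine le_trans ?_ hlow
    apply mul_le_mul_of_nonneg_right _ hEx0
    calc ρ * c' * min 1 cl ≤ ρ * c' * 1 := by
          apply mul_le_mul_of_nonneg_left (min_le_left _ _) (by positivity)
      _ = _ := mul_one _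
  · refine le_trans ?_ hlow
    calc ρ * c' * min 1 cl * (X / W * (W / (W.totient * Real.log X)) ^ m) ≤
        ρ * c' * cl * (X / W * (W / (W.totient * Real.log X)) ^ m) := by
          apply mul_le_mul_of_nonneg_right _ (by positivity)
          exact mul_le_mul_of_nonneg_left (min_le_right _ _) (by positivity)
      _ = ρ * c' * (cl * (X / W * (W / (W.totient * Real.log X)) ^ m)) := by ring
      _ ≤ _ := mul_le_mul_of_nonneg_left (h3 m hm1 hm2 hmc) (by positivity)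

/-- the expected order of magnitude decreases with the level -/
theorem Ex_le {k : ℕ} (κ κ' X X' : ℝ) (hX' : 0 < X') (hXX : X' ≤ X) (hpow : X ^ κ ≤ X' ^ κ') (W : ℕ) (x : Fin k → ℤ)
    (hadm : ∀ p : ℕ, p.Prime → ∃ a : ℤ, ¬ (p : ℤ) ∣ a ∧ ∀ j, ¬ (p : ℤ) ∣ a + x j) :
    Ex κ' X' W x ≤ Ex κ X W x := by
  have h01 : ∀ p : ℕ, p.Prime → 0 ≤ 1 - ((Zx x p).card : ℝ) / p ∧ 1 - ((Zx x p).card : ℝ) / p ≤ 1 := by
    intro p hp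
    have hp0 : (0 : ℝ) < p := by exact_mod_cast hp.pos
    have h1 : ((Zx x p).card : ℝ) / p ≤ 1 := by
      rw [div_le_one hp0]
      exact_mod_cast (Zx_props x p hp (hadm p hp)).2.1.le
    have h2 : 0 ≤ ((Zx x p).card : ℝ) / p := by positivity
    constructor <;> linarith
  have hPf : ∀ y : ℕ, ∀ p ∈ Pf W y, p.Prime := by
    intro y p hp
    unfold Pf at hp
    exact (mem_filter.1 hp).2.1
  unfold Ex
  have h1 : ∏ p ∈ Pf W ⌊X' ^ κ'⌋₊, (1 - ((Zx x p).card : ℝ) / p) ≤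
      ∏ p ∈ Pf W ⌊X ^ κ⌋₊, (1 - ((Zx x p).card : ℝ) / p) := by
    apply prod_le_prod_of_subset_of_le_one
    · intro p hp
      unfold Pf at hp ⊢
      rw [mem_filter, mem_Icc] at hp ⊢
      exact ⟨⟨hp.1.1, hp.1.2.trans (Nat.floor_le_floor hpow)⟩, hp.2⟩
    · intro p hp
      exact (h01 p (hPf _ p hp)).1
    · intro p hp _
      exact (h01 p (hPf _ p hp)).2
  have h2 : 0 ≤ ∏ p ∈ Pf W ⌊X' ^ κ'⌋₊, (1 - ((Zx x p).card : ℝ) / p) :=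
    prod_nonneg fun p hp => (h01 p (hPf _ p hp)).1
  calc X' / W * ∏ p ∈ Pf W ⌊X' ^ κ'⌋₊, (1 - ((Zx x p).card : ℝ) / p) ≤
      X / W * ∏ p ∈ Pf W ⌊X' ^ κ'⌋₊, (1 - ((Zx x p).card : ℝ) / p) := by
        apply mul_le_mul_of_nonneg_right _ h2
        gcongr
    _ ≤ _ := mul_le_mul_of_nonneg_left h1 (by
        have : 0 ≤ X := by linarith
        positivity)

end Pool.Agent.J4H73.AQ
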