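import Pool.Agent.J4H73.KT.AsmK

/-! The assembly for `k` shifts, with the class and the order of magnitude of the main term. -/

set_option autoImplicit false
set_option maxHeartbeats 4000000

open Finset Filter

namespace Pool.Agent.J4H73.AQ

open Pool.Agent.H378R2 Pool.Agent.H378R2.LSBV Pool.Agent.N610.AP Pool.Agent.Y882
open Pool.Agent.J4H73.BV Pool.Agent.J4H73.CH Pool.Agent.J4H73.CG Pool.Agent.J4H73.KT
open Pool.Agent.W23.DC (Mer pr SF)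
open Pool.Agent

theorem fin_num2 (L M1 ε₁ D a θ σ Bs K E20 E10 Ep c₃ t X9 SW s1 s2 s3 s4 s5 s6 : ℝ)
    (hL : 100 ≤ L) (hEp : 0 < Ep)
    (hlow : M1 * (ε₁ * (a - θ)) - (5 * L * E20 + 10 * L ^ 2 * Ep) ≤ SW)
    (hup : SW ≤ s1 + s2 + s3 + s4 + s5 + s6) (b1 : s1 ≤ 2 * L * t) (b2 : s2 ≤ 8 * L * Ep)
    (b3 : s3 ≤ ε₁ * D / 8 * M1 + Ep) (b4 : s4 ≤ ε₁ * D / 8 * M1 + 2 * c₃ * L ^ 2 * E20)
    (b5 : s5 ≤ Ep) (b6 : s6 ≤ σ * (ε₁ * (Bs + θ) * M1 + E10))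
    (h1 : (1 + σ) * θ = D / 8) (h2 : D = a - σ * Bs) (r1 : 22 * L ^ 2 * Ep ≤ K)
    (r2 : (5 * L + 2 * c₃ * L ^ 2) * E20 ≤ K) (r3 : σ * E10 ≤ K) (hK : K ≤ ε₁ * D / 16 * M1)
    (hX9 : X9 ≤ Ep) (hM : 0 ≤ ε₁ * D * M1) : X9 ≤ t ∧ ε₁ * D * M1 ≤ 8 * L * t := by
  have hL0 : 0 < L := by linarith
  have g3 : 10 * L ^ 2 * Ep + 8 * L * Ep + Ep + Ep + 2 * L * Ep ≤ 22 * L ^ 2 * Ep := by
    have g4 : L ≤ L ^ 2 := by nlinarith
    have g5 : 1 ≤ L ^ 2 := by nlinarith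
    have g6 : L * Ep ≤ L ^ 2 * Ep := mul_le_mul_of_nonneg_right g4 hEp.le
    have g7 : 1 * Ep ≤ L ^ 2 * Ep := mul_le_mul_of_nonneg_right g5 hEp.le
    linarith
  have hkey : M1 * (ε₁ * (a - θ)) - M1 * (σ * (ε₁ * (Bs + θ))) = ε₁ * D * M1 - ε₁ * (D / 8) * M1 := by
    rw [← h1, h2]
    ring
  have g1 : 2 * L * X9 ≤ 2 * L * Ep := mul_le_mul_of_nonneg_left hX9 (by linarith)
  have g0 : 0 ≤ 2 * L * Ep := by positivity
  have g8 : (5 * L + 2 * c₃ * L ^ 2) * E20 = 5 * L * E20 + 2 * c₃ * L ^ 2 * E20 := by ring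
  have g9 : σ * (ε₁ * (Bs + θ) * M1 + E10) = M1 * (σ * (ε₁ * (Bs + θ))) + σ * E10 := by ring
  rw [g8] at r2
  rw [g9] at b6
  have g10 : ε₁ * (D / 8) * M1 = ε₁ * D * M1 / 8 := by ring
  have g11 : ε₁ * D / 8 * M1 = ε₁ * D * M1 / 8 := by ring
  have g12 : ε₁ * D / 16 * M1 = ε₁ * D * M1 / 16 := by ring
  rw [g10] at hkey
  rw [g11] at b3 b4
  rw [g12] at hK
  refine ⟨le_of_mul_le_mul_left (a := 2 * L) ?_ (by linarith), ?_⟩
  · linarith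
  · linarith

open Classical in
theorem assembleK2 (k : ℕ) (hk : 1 ≤ k) (A0 : ℝ) (F f : ℝ → ℝ) (hSF : SF A0 F f) (d : ℝ) (hd0 : 0 < d) (hd : d ≤ 1 / 2)
    (τ ζ υ aw bw τ' : ℝ) (hζ10 : 1 / 10 ≤ ζ)
    (h2 : 2 * ζ < τ) (h4 : τ ≤ 4 * ζ) (hτ : τ ≤ 1) (hζυ : ζ ≤ υ) (hυ2 : υ ≤ 1 / 2) (hυτ : υ < τ)
    (ha : 0 ≤ aw) (hb : 0 ≤ bw) (hab : bw * υ ≤ aw)
    (hJ0 : ∫ x in ζ..υ, (aw - bw * x) / (τ - x) / x < Real.log (τ / ζ - 1) / τ)
    (h5 : τ < τ') (h6 : τ' ≤ 497 / 1000) (A N : ℕ) (hA : 4 * k + 20 ≤ A) (hN : 2 ^ (A + 1) + A + 1 ≤ N)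
    (T : ℝ → ℕ → ℝ) (hT0 : ∀ X f, 0 ≤ T X f) (hTT : ∀ X f, TT X f ≤ T X f)
    (hTL : ∀ X f, TG d X (fun n => ArithmeticFunction.vonMangoldt n) f ≤ T X f) (B0 : ℕ) (C0 : ℝ)
    (hT1 : ∀ᶠ X : ℝ in atTop, ∑ f ∈ Icc 2 ⌊X ^ (1 / 50 : ℝ)⌋₊, T X f ≤ C0 * X * (Real.log X) ^ B0)
    (hT2 : ∀ Z' : ℕ, ∀ᶠ X : ℝ in atTop, ∃ fs : ℕ, (fs = 0 ∨ Z' < fs) ∧ ∀ f : ℕ, Squarefree f →
      1 < f → (f : ℝ) ≤ Real.exp ((Real.log (Real.log X)) ^ 6) → f ≠ fs →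
        T X f ≤ X * Real.exp (2 * (Real.log (Real.log X)) ^ 6 - (Real.log (Real.log X)) ^ 7))
    (hT3 : ∀ᶠ X : ℝ in atTop, ∀ F0 F1 : ℕ, 2 ≤ F0 → X ^ (1 / 100 : ℝ) ≤ 2 * F0 →
      (F1 : ℝ) ≤ X ^ (623 / 1250 : ℝ) →
      ∑ f ∈ Icc F0 F1, (1 / (f : ℝ)) * T X f ≤ X ^ (19971 / 20000 : ℝ))
    (H : ℝ → ℤ → Prop) (hH : ∀ᶠ X : ℝ in atTop, ∀ h : ℤ, H X h → h ≠ 0 ∧ |(h : ℝ)| ≤ 9 * X ∧
      ∀ n : ℕ, X < n → (n : ℝ) ≤ 3 * X → (n : ℤ) + h ≠ 0)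
    (Gd Sw : ℝ → ℕ → Prop) (σ Bs : ℝ) (hσ : 0 ≤ σ)
    (hpt : ∀ᶠ X : ℝ in atTop, ∀ N : ℕ, 0 < N → (N : ℝ) ≤ 12 * X → KW.WW ⌊X⌋₊ ζ υ aw bw N ≤
        (if Gd X N then 1 else 0) + σ * (if Sw X N then 1 else 0) +
          (if ∃ q ∈ pr ⌊X⌋₊ ζ υ, q ^ 2 ∣ N then 1 else 0))
    (hsw : ∀ θ : ℝ, 0 < θ → ∃ ε₀ : ℝ, 0 < ε₀ ∧ ∀ ε₁ : ℝ, 0 < ε₁ → ε₁ ≤ ε₀ → ∃ Zs : ℕ, ∀ᶠ X : ℝ in atTop,
        ∀ (ps : ℕ) (S : Finset ℕ), GoodP Zs ps → GoodS X S →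
        ∑ p ∈ pairs X ps ⌊X ^ (497 / 1000 : ℝ)⌋₊ S, LSBV.wt A p.2 * T X (p.1 * p.2) ≤ X / (Real.log X) ^ N →
        ∀ (x : Fin k → ℤ) (i0 : Fin k) (r : ℕ), H X (x i0) → r.Coprime (WW X S ps) →
        (∀ p : ℕ, p.Prime → p ∣ WW X S ps → ∀ j, ¬ (p : ℤ) ∣ r + x j) →
        ∑ n ∈ (Icc 1 ⌊3 * X⌋₊).filter (fun n : ℕ => n ≡ r [MOD WW X S ps] ∧ n.Prime ∧
            Sw X ((n : ℤ) + x i0).natAbs ∧ ∀ p ∈ Y882.PZ ⌊X⌋₊ ε₁, p ≠ ps → ∀ j, ¬ (p : ℤ) ∣ n + x j),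
          Ps d X n * ArithmeticFunction.vonMangoldt n ≤
          ε₁ * (Bs + θ) * (LPs d X / (WW X S ps).totient *
            ∏ p ∈ Y882.PZ ⌊X⌋₊ ε₁, (1 - gR (WW X S ps) ps (Rx x) p)) +
            X / ((WW X S ps).totient * (Real.log X) ^ (4 * k + 10)))
    (hfin : σ * Bs < A0 * (Real.log (τ / ζ - 1) / τ - ∫ x in ζ..υ, (aw - bw * x) / (τ - x) / x)) :
    ∀ δ₁ : ℝ, 0 < δ₁ → ∃ c : ℝ, 0 < c ∧ ∃ ε₁ : ℝ, 0 < ε₁ ∧ ε₁ ≤ 1 / 4 ∧ ε₁ ≤ δ₁ / 2 ∧ ∃ ρ : ℝ, 0 < ρ ∧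
      ∀ᶠ X : ℝ in atTop, ∀ x : Fin k → ℤ,
      (∀ p : ℕ, p.Prime → ∃ a : ℤ, ¬ (p : ℤ) ∣ a ∧ ∀ j, ¬ (p : ℤ) ∣ a + x j) → (∀ j, |(x j : ℝ)| ≤ 9 * X) →
      ∀ i0 : Fin k, H X (x i0) → ∃ (W ps r : ℕ), 0 < W ∧ (W : ℝ) ≤ X ^ (7 / 5000 : ℝ) ∧
        (∀ p : ℕ, p.Prime → p ∣ W → (p : ℝ) ≤ Real.log X) ∧ ∃ T : Finset ℕ,
        (∀ n ∈ T, n ≡ r [MOD W] ∧ n ≤ ⌊3 * X⌋₊ ∧ X < n ∧ n.Prime ∧ Gd X ((n : ℤ) + x i0).natAbs ∧
        (∀ j, ∀ q : ℕ, q.Prime → (q : ℤ) ∣ n + x j → (⌊X⌋₊ : ℝ) ^ ε₁ ≤ q) ∧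
        ∀ z : ℤ, |(z : ℝ)| ≤ c * CH.RR X → z ≠ 0 → (∀ j, z ≠ x j) →
          ∃ q : ℕ, q.Prime ∧ (q : ℝ) ≤ X ^ (2 * (ε₁ / 3)) ∧ (q : ℤ) ∣ n + z) ∧
        X ^ (199 / 200 : ℝ) ≤ (T.card : ℝ) ∧
        ρ * (X / (W.totient * Real.log X) * ∏ p ∈ Y882.PZ ⌊X⌋₊ ε₁, (1 - gR W ps (Rx x) p)) ≤ T.card := by
  intro δ₁ hδ₁
  have hζ : 0 < ζ := by linarith
  set c₂ : ℝ := Real.log (τ / ζ - 1) / τ - ∫ x in ζ..υ, (aw - bw * x) / (τ - x) / x with hc₂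
  obtain ⟨D, hD⟩ : ∃ D : ℝ, D = A0 * c₂ - σ * Bs := ⟨_, rfl⟩
  have hD0 : 0 < D := by rw [hD]; linarith
  obtain ⟨θ, hθ⟩ : ∃ θ : ℝ, θ = D / (8 * (1 + σ)) := ⟨_, rfl⟩
  have hθ0 : 0 < θ := by rw [hθ]; positivity
  have hθD : (1 + σ) * θ = D / 8 := by
    rw [hθ]
    field_simp
  obtain ⟨ε₀a, hε₀a, HL⟩ := coreL A0 F f hSF k τ ζ υ aw bw τ' hζ h2 h4 hτ hζυ hυτ ha hb hab hJ0 h5 θ hθ0
  obtain ⟨ε₀b, hε₀b, HS⟩ := hsw θ hθ0
  obtain ⟨Cs, hCs, HSV⟩ := survK k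
  obtain ⟨Ce, hCe, HEX⟩ := excK k
  obtain ⟨E, hE⟩ : ∃ E : ℕ, E = Cs * Cs + Ce * Ce := ⟨_, rfl⟩
  have hE1 : 1 ≤ E := by rw [hE]; nlinarith
  have hEr : (1 : ℝ) ≤ E := by exact_mod_cast hE1
  obtain ⟨ε₁, hε₁⟩ : ∃ ε₁ : ℝ, ε₁ = min (min ε₀a ε₀b) (min (min (1 / 4) (δ₁ / 2)) (min (ζ / 4) (1 / (400 * E)))) :=
    ⟨_, rfl⟩
  have hε0 : 0 < ε₁ := by
    rw [hε₁]
    refine lt_min (lt_min hε₀a hε₀b) (lt_min (lt_min (by norm_num) (by positivity)) (lt_min (by positivity) (by positivity)))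
  have hεa : ε₁ ≤ ε₀a := by rw [hε₁]; exact (min_le_left _ _).trans (min_le_left _ _)
  have hεb : ε₁ ≤ ε₀b := by rw [hε₁]; exact (min_le_left _ _).trans (min_le_right _ _)
  have hε4 : ε₁ ≤ 1 / 4 := by
    rw [hε₁]; exact (min_le_right _ _).trans ((min_le_left _ _).trans (min_le_left _ _))
  have hεδ : ε₁ ≤ δ₁ / 2 := by
    rw [hε₁]; exact (min_le_right _ _).trans ((min_le_left _ _).trans (min_le_right _ _))
  have hεζ : ε₁ ≤ ζ / 4 := by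
    rw [hε₁]; exact (min_le_right _ _).trans ((min_le_right _ _).trans (min_le_left _ _))
  have hεE : ε₁ ≤ 1 / (400 * E) := by
    rw [hε₁]; exact (min_le_right _ _).trans ((min_le_right _ _).trans (min_le_right _ _))
  obtain ⟨η, hη, Y1, HL⟩ := HL ε₁ hε0 hεa
  obtain ⟨Zs, HS⟩ := HS ε₁ hε0 hεb
  obtain ⟨C1', hC1', HSV⟩ := HSV A (by omega) (ε₁ / 3 / 2) (by positivity)
  obtain ⟨C2', hC2', HEX⟩ := HEX (ε₁ / 3 / 2) (by positivity)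
  -- the masses
  have hkd : 0 < kap d := kap_pos d hd0
  have hkh : 0 < kap (1 / 2) := kap_pos (1 / 2) (by norm_num)
  obtain ⟨Kd, hKd⟩ : ∃ Kd : ℝ, Kd = 4 * kap (1 / 2) / kap d := ⟨_, rfl⟩
  have hKd0 : 0 < Kd := by rw [hKd]; positivity
  obtain ⟨Ke, hKe⟩ : ∃ Ke : ℝ, Ke = Real.exp (6 * k) * Kd := ⟨_, rfl⟩
  have hKe0 : 0 < Ke := by rw [hKe]; positivity
  have evm1 : ∀ᶠ X : ℝ in atTop, kap d / 2 * X ≤ LPs d X := by
    filter_upwards [(LPs_asymp d hd0.le hd).eventually (Ioi_mem_nhds (show kap d / 2 < kap d by linarith)),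
      eventually_gt_atTop 0] with X h1 h2
    have h3 : kap d / 2 < LPs d X / X := h1
    rw [lt_div_iff₀ h2] at h3
    exact h3.le
  have evm2 : ∀ᶠ X : ℝ in atTop, LPhi X ≤ 2 * kap (1 / 2) * X := by
    filter_upwards [(LPs_asymp (1 / 2) (by norm_num) le_rfl).eventually
      (Iio_mem_nhds (show kap (1 / 2) < 2 * kap (1 / 2) by linarith)), eventually_gt_atTop 0] with X h1 h2
    have h3 : LPs (1 / 2) X / X < 2 * kap (1 / 2) := h1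
    rw [div_lt_iff₀ h2, LPs_half] at h3
    exact h3.le
  obtain ⟨C1, hC1d⟩ : ∃ C1 : ℝ, C1 = C1' * Ke := ⟨_, rfl⟩
  obtain ⟨C2, hC2d⟩ : ∃ C2 : ℝ, C2 = k * C2' * Ke := ⟨_, rfl⟩
  have hk0 : (0 : ℝ) < k := by exact_mod_cast hk
  have hC1 : 0 < C1 := by rw [hC1d]; positivity
  have hC2 : 0 < C2 := by rw [hC2d]; positivity
  obtain ⟨c₃, hc₃⟩ : ∃ c₃ : ℝ, c₃ = ε₁ * D / (8 * C1) := ⟨_, rfl⟩
  have hc₃0 : 0 < c₃ := by rw [hc₃]; positivity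
  obtain ⟨c, hc, HC⟩ := coverK k c₃ hc₃0
  obtain ⟨Z, hZ⟩ : ∃ Z : ℕ, Z = max (max (max Cs Ce) (max Zs (4 * k + 2))) (⌈8 * C2 / (ε₁ * D)⌉₊ + 1) := ⟨_, rfl⟩
  have hZs : Cs ≤ Z := by rw [hZ]; exact ((le_max_left _ _).trans (le_max_left _ _)).trans (le_max_left _ _)
  have hZe : Ce ≤ Z := by rw [hZ]; exact ((le_max_right _ _).trans (le_max_left _ _)).trans (le_max_left _ _)
  have hZZ : Zs ≤ Z := by rw [hZ]; exact ((le_max_left _ _).trans (le_max_right _ _)).trans (le_max_left _ _)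
  have hZ6 : 4 * k + 2 ≤ Z := by rw [hZ]; exact ((le_max_right _ _).trans (le_max_right _ _)).trans (le_max_left _ _)
  have hZC : 8 * C2 / (ε₁ * D) ≤ Z := by
    refine (Nat.le_ceil _).trans ?_
    have : ⌈8 * C2 / (ε₁ * D)⌉₊ ≤ Z := by
      rw [hZ]
      exact (Nat.le_succ _).trans (le_max_right _ _)
    exact_mod_cast this
  obtain ⟨cG, hcG, HG⟩ := G1_lowK k ε₁
  obtain ⟨κ₀, hκ₀⟩ : ∃ κ₀ : ℝ, κ₀ = ε₁ * D / 16 * (cG * (kap d / 2)) := ⟨_, rfl⟩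
  have hκ0 : 0 < κ₀ := by rw [hκ₀]; positivity
  have hkA : k ≤ 2 ^ A := by
    have h1 : k < 2 ^ k := Nat.lt_two_pow_self
    have h2 : 2 ^ k ≤ 2 ^ A := Nat.pow_le_pow_right (by norm_num) (by omega)
    omega
  refine ⟨c, hc, ε₁, hε0, hε4, hεδ, ε₁ * D * (kap d / 2) / 8, by positivity, ?_⟩
  have t1 := Real.tendsto_log_atTop
  have t2 : Tendsto (fun y : ℝ => Real.log (Real.log y)) atTop atTop := t1.comp t1
  filter_upwards [good_set A Z N T hT0 B0 C0 hT1 hT2 hT3, HC, floor_facts, eventually_ge_atTop (Y1 : ℝ),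
    merK ε₁ υ η hε0 hυ2 hη, mainK d hd0.le hd A, HSV, HEX, ex_J (ε₁ / 3) (by positivity) (by linarith), HG,
    squaresZ ζ υ hζ (by linarith) hυ2, hpt, HS, hH, evm1, evm2, PG_le_G1K k ε₁ hε0 (by linarith),
    LPhi_ge, Pool.Agent.H312R2.RG.ev_ff c hc, errsK (4 * k) (κ₀ / (k + 1)) (2 * c₃) σ (by positivity),
    t1.eventually_ge_atTop 100, t2.eventually_ge_atTop 1,
    Pool.Agent.H398R2.BV.ev_log 1 1 (2 * (ε₁ / 3)) (by positivity), eventually_ge_atTop 100,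
    Pool.Agent.H398R2.BV.ev_log 2 2 1 (by norm_num)] with
    X HGS HC hfl hXY1 HM HMP HSV HEX HJ HG HSQ hpt HS hH hmd hmh HPG hLP hff herr hL100 hl1 hLδ hX100 hL2X
  intro x hadm hx9 i0 hHh
  obtain ⟨hh0, hhX, hhn⟩ := hH (x i0) hHh
  obtain ⟨f1, f2, f3, f4⟩ := hfl
  have hX0 : 0 < X := by linarith
  have hX1 : 1 ≤ X := by linarith
  obtain ⟨ps, S, hps, hS, hpairs⟩ := HGS
  set L := Real.log X with hL
  set l := Real.log L with hl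
  set Y := ⌊X⌋₊ with hY
  have hYr : (100 : ℝ) ≤ Y := by exact_mod_cast f1
  have hL0 : 0 < L := by linarith
  set W := WW X S ps with hW
  have hW0 : 0 < W := H378R2.WW_pos X S ps
  have hφ0 : (0 : ℝ) < W.totient := by exact_mod_cast Nat.totient_pos.2 hW0
  have hφX : (W.totient : ℝ) ≤ X ^ (7 / 5000 : ℝ) := by
    have h1 : (W : ℝ) ≤ X ^ (7 / 5000 : ℝ) :=
      le_trans (by exact_mod_cast Nat.le_of_dvd (primorial_pos _) (WW_dvd_primorial X S ps))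
        (primorial_yy_le' X hX1)
    exact le_trans (by exact_mod_cast Nat.totient_le W) h1
  have hps' : ps = 1 ∨ ps.Prime := by
    rcases hps with h | h
    · exact Or.inl h
    · exact Or.inr h.1
  have hGP : ∀ m : ℕ, m ≤ Z → GoodP m ps := by
    intro m hm
    rcases hps with h | h
    · exact Or.inl h
    · exact Or.inr ⟨h.1, by omega⟩
  obtain ⟨r, b', U0, hr, hrh, hU0, hU1, hb', hcov⟩ := HC ps S (hGP 2 (by omega)) hS x hadm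
  obtain ⟨J, hJ1, hJY, hJX, hJY2, hJX2, hJL⟩ := HJ
  have hpairsTT : ∑ p ∈ pairs X ps ⌊X ^ (497 / 1000 : ℝ)⌋₊ S, LSBV.wt A p.2 * TT X (p.1 * p.2) ≤
      X / L ^ (2 ^ (A + 1) + A + 1) := by
    refine le_trans (sum_le_sum fun p _ => mul_le_mul_of_nonneg_left (hTT X _) (wt_nonneg A _)) (hpairs.trans ?_)
    apply div_le_div_of_nonneg_left hX0.le (by positivity)
    exact pow_le_pow_right₀ (by linarith) hN
  have hpairsTL : ∑ p ∈ pairs X ps ⌊X ^ (497 / 1000 : ℝ)⌋₊ S, LSBV.wt A p.2 *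
      TG d X (fun n => ArithmeticFunction.vonMangoldt n) (p.1 * p.2) ≤ X / L ^ (2 ^ (A + 1) + A + 1) := by
    refine le_trans (sum_le_sum fun p _ => mul_le_mul_of_nonneg_left (hTL X _) (wt_nonneg A _)) (hpairs.trans ?_)
    apply div_le_div_of_nonneg_left hX0.le (by positivity)
    exact pow_le_pow_right₀ (by linarith) hN
  -- the J conditions
  have hJE : ∀ C0 : ℕ, C0 * C0 ≤ E → ((2 ^ 2 ^ J) ^ (C0 * C0) : ℕ) ≤ ⌊Real.exp (2 * LL X)⌋₊ := by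
    intro C0 hC0
    apply Nat.le_floor
    push_cast
    have e1 : Real.exp (2 * LL X) = X ^ (1 / 100 : ℝ) := by
      rw [Real.rpow_def_of_pos hX0]
      congr 1
      unfold LL
      ring
    rw [e1]
    calc ((2 : ℝ) ^ 2 ^ J) ^ (C0 * C0) ≤ (X ^ (2 * (ε₁ / 3))) ^ (C0 * C0) := by gcongr
      _ ≤ (X ^ (2 * (ε₁ / 3))) ^ E := by
          apply pow_le_pow_right₀ _ hC0
          exact Real.one_le_rpow hX1 (by positivity)
      _ = X ^ (2 * (ε₁ / 3) * E) := by rw [← Real.rpow_natCast, ← Real.rpow_mul hX0.le]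
      _ ≤ X ^ (1 / 100 : ℝ) := by
          apply Real.rpow_le_rpow_of_exponent_le hX1
          rw [le_div_iff₀ (by positivity)] at hεE
          linarith
  set R : ℕ → Finset ℕ := RC x (x i0) (Y882.PZ Y ε₁) with hRdef
  set G1 := ∏ p ∈ Y882.PZ Y ε₁, (1 - gR W ps (Rx x) p) with hG1
  have hPZp : ∀ w : ℝ, ∀ p ∈ Y882.PZ Y w, p.Prime := by
    intro w p hp
    unfold Y882.PZ at hp
    exact (mem_filter.1 hp).2.1
  have hG10 : 0 ≤ G1 := prod_nonneg fun p hp => (gR_Rx_le_one W ps x p (hPZp _ p hp)).1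
  set PG := ∏ p ∈ N610.AP.PZ X S ps J, (1 - gR W ps (Rx x) p) with hPG
  have hPG0 : 0 ≤ PG := prod_nonneg fun p hp => (gR_Rx_le_one W ps x p (mem_PZ.1 hp).1).1
  have hPGG : PG ≤ Real.exp (6 * k) * G1 := HPG ps S J hJY x
  have hLP0 : 0 ≤ LPhi X := by
    have : 0 ≤ X / 200 := by positivity
    linarith
  have hLd0 : 0 ≤ LPs d X := le_trans (by positivity) hmd
  have hLdK : LPhi X ≤ Kd * LPs d X := by
    refine hmh.trans ?_
    calc 2 * kap (1 / 2) * X = Kd * (kap d / 2 * X) := by rw [hKd]; field_simp; ring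
      _ ≤ _ := mul_le_mul_of_nonneg_left hmd hKd0.le
  set M1 := LPs d X / W.totient * G1 with hM1
  have hM10 : 0 ≤ M1 := by positivity
  have hM1P : LPhi X / W.totient * PG ≤ Ke * M1 := by
    calc LPhi X / W.totient * PG ≤ (Kd * LPs d X) / W.totient * (Real.exp (6 * k) * G1) := by gcongr
      _ = Ke * M1 := by rw [hM1, hKe]; ring
  obtain ⟨r1, r2, r3⟩ := herr W.totient hφ0 hφX
  set Q := X / ((W.totient : ℝ) * L ^ (4 * k)) with hQ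
  have hQ0 : 0 ≤ Q := by positivity
  have hκk : κ₀ / (k + 1) * Q ≤ κ₀ * Q := by
    apply mul_le_mul_of_nonneg_right _ hQ0
    exact div_le_self hκ0.le (by linarith)
  have r1' : 22 * L ^ 2 * ((k + 1) * X ^ (199 / 200 : ℝ)) ≤ κ₀ * Q := by
    calc 22 * L ^ 2 * ((k + 1) * X ^ (199 / 200 : ℝ)) = (k + 1) * (22 * L ^ 2 * X ^ (199 / 200 : ℝ)) := by ring
      _ ≤ (k + 1) * (κ₀ / (k + 1) * Q) := mul_le_mul_of_nonneg_left r1 (by positivity)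
      _ = κ₀ * Q := by field_simp
  have r2' := r2.trans hκk
  have r3' := r3.trans hκk
  have hM1low : κ₀ * Q ≤ ε₁ * D / 16 * M1 := by
    have e1 : cG * (kap d / 2) * Q ≤ M1 := by
      calc cG * (kap d / 2) * Q = (kap d / 2 * X) / W.totient * (cG / L ^ (4 * k)) := by rw [hQ]; field_simp
        _ ≤ LPs d X / W.totient * (cG / L ^ (4 * k)) := by gcongr
        _ ≤ LPs d X / W.totient * G1 := by
            apply mul_le_mul_of_nonneg_left _ (by positivity)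
            exact HG ps S (hGP (4 * k + 2) hZ6) hS x
    calc κ₀ * Q = ε₁ * D / 16 * (cG * (kap d / 2) * Q) := by rw [hκ₀]; ring
      _ ≤ _ := mul_le_mul_of_nonneg_left e1 (by positivity)
  have hAL : X / ((W.totient : ℝ) * L ^ A) ≤ X / ((W.totient : ℝ) * L ^ (4 * k + 20)) := by
    apply div_le_div_of_nonneg_left hX0.le (by positivity)
    apply mul_le_mul_of_nonneg_left _ hφ0.le
    exact pow_le_pow_right₀ (by linarith) hA
  -- the weights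
  obtain ⟨cw, hcw1, hcw2, hcw3, hcw4⟩ := HL Y (Nat.le_floor hXY1)
  have hlogYL : Real.log Y ≤ L := Real.log_le_log (by linarith) f2
  have hlogY0 : 0 < Real.log Y := Real.log_pos (by linarith)
  have hgR0 : ∀ p ∈ Y882.PZ Y υ, 0 ≤ gR W ps R p := fun p hp => gR_nn W ps R p (hPZp _ p hp)
  have hG1R : ∏ p ∈ Y882.PZ Y ε₁, (1 - gR W ps R p) = G1 := by
    apply prod_congr rfl
    intro p hp
    rw [gR_congr W ps R (Rx x) p (by rw [hRdef, RC_pos x (x i0) _ p hp])]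
  have hVlow := hcw4 (gR W ps R) hgR0
    (fun p hp => by
      linarith [(gR_le_one W ps R p (card_RC_le' x (x i0) _ p (hPZp _ p hp).pos) (hPZp _ p hp)).1])
    (fun p hp _ => gR_le W ps R k p (card_RC_le x (x i0) _ p hk) (hPZp _ p hp))
    (HM ps S hps' (x i0) hh0 hhX R (fun p hp => by rw [hRdef, RC_neg x (x i0) _ p (pr_not_PZ hp)]))
  rw [hG1R] at hVlow
  have hRW : ∀ p ∈ Y882.PZ Y υ, p ∣ W → r % p ∉ R p := by
    intro p hp hpW hmem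
    have hpp := hPZp _ p hp
    have h7 := hrh p hpp hpW
    by_cases h8 : p ∈ Y882.PZ Y ε₁
    · rw [hRdef, RC_pos x (x i0) _ p h8, mod_mem_Rx _ _ _ hpp.pos] at hmem
      obtain ⟨j, hj⟩ := hmem.2
      exact h7 j hj
    · rw [hRdef, RC_neg x (x i0) _ p h8, mod_mem_Rx _ _ _ hpp.pos] at hmem
      obtain ⟨j, hj⟩ := hmem.2
      exact h7 i0 hj
  have hmain := HMP ps S hps' hpairsTL R k hkA r hr (Y882.PZ Y υ) (hPZp υ)
    (fun p hp => RC_range x (x i0) _ p (hPZp _ p hp).pos) (fun p _ => card_RC_le x (x i0) _ p hk) hRW cw (5 * L)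
    (fun T => (hcw1 T).trans (by linarith)) (by
      intro T hT hne
      refine (hcw2 T hT hne).trans ?_
      calc (Y : ℝ) ^ τ' ≤ X ^ τ' := Real.rpow_le_rpow (by positivity) f2 (by linarith)
        _ ≤ X ^ (497 / 1000 : ℝ) := Real.rpow_le_rpow_of_exponent_le hX1 h6)
  set w : ℕ → ℝ := fun n => Ps d X n * ArithmeticFunction.vonMangoldt n with hw
  have hw0 : ∀ n, 0 ≤ w n := fun n => mul_nonneg (Ps_nonneg _ _ _) ArithmeticFunction.vonMangoldt_nonneg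
  have hwPhi : ∀ n, w n ≤ Phi (n / X) * ArithmeticFunction.vonMangoldt n := fun n =>
    mul_le_mul_of_nonneg_right (Ps_le_Phi d X n hd) ArithmeticFunction.vonMangoldt_nonneg
  set Fr := (Icc 1 ⌊3 * X⌋₊).filter (fun n => n ≡ r [MOD W]) with hFr
  have hℓL : Real.log (3 * X) ≤ 2 * L := by
    rw [Real.log_mul (by norm_num) hX0.ne']
    have : Real.log 3 ≤ Real.log X := Real.log_le_log (by norm_num) (by linarith)
    linarith
  have hℓ0 : 0 ≤ Real.log (3 * X) := Real.log_nonneg (by linarith)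
  have hwle : ∀ n ∈ Icc 1 ⌊3 * X⌋₊, w n ≤ 2 * L := by
    intro n hn
    rw [mem_Icc] at hn
    have h1 : ArithmeticFunction.vonMangoldt n ≤ 2 * L := by
      refine ArithmeticFunction.vonMangoldt_le_log.trans (le_trans ?_ hℓL)
      apply Real.log_le_log (by exact_mod_cast hn.1)
      exact (Nat.le_floor_iff (by linarith)).1 hn.2
    calc w n ≤ 1 * (2 * L) :=
          mul_le_mul (Ps_le_one d X n hd0.le hd) h1 ArithmeticFunction.vonMangoldt_nonneg zero_le_one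
      _ = _ := one_mul _
  have hEp0 : 0 < X ^ (199 / 200 : ℝ) := by positivity
  -- lower bound
  set SW := ∑ n ∈ Fr, w n * VV (Y882.PZ Y υ) cw (fun p => if p ≠ ps ∧ n % p ∈ R p then 1 else 0) with hSW
  have hlow : M1 * (ε₁ * (A0 * c₂ - θ)) - (5 * L * (X / ((W.totient : ℝ) * L ^ (4 * k + 20))) +
      10 * L ^ 2 * ((k + 1) * X ^ (199 / 200 : ℝ))) ≤ SW := by
    have e2 := (abs_le.1 hmain).1
    have e3 : M1 * (ε₁ * (A0 * c₂ - θ)) ≤ LPs d X / W.totient * VV (Y882.PZ Y υ) cw (gR W ps R) := by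
      calc M1 * (ε₁ * (A0 * c₂ - θ)) = LPs d X / W.totient * (ε₁ * (A0 * c₂ - θ) * G1) := by rw [hM1]; ring
        _ ≤ _ := mul_le_mul_of_nonneg_left hVlow (by positivity)
    have e4 : 5 * L * (X / ((W.totient : ℝ) * L ^ A)) ≤
        5 * L * (X / ((W.totient : ℝ) * L ^ (4 * k + 20))) := by gcongr
    have e5 : 0 ≤ 10 * L ^ 2 * ((k + 1) * X ^ (199 / 200 : ℝ)) := by positivity
    linarith only [e2, e3, e4, e5]
  -- the six sums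
  set tgt := (Icc 1 ⌊3 * X⌋₊).filter (fun n : ℕ => n ≡ r [MOD W] ∧ X < n ∧ n.Prime ∧
        Gd X ((n : ℤ) + x i0).natAbs ∧
        (∀ j, ∀ q : ℕ, q.Prime → (q : ℤ) ∣ n + x j → (Y : ℝ) ^ ε₁ ≤ q) ∧
        ∀ z : ℤ, |(z : ℝ)| ≤ c * CH.RR X → z ≠ 0 → (∀ j, z ≠ x j) →
          ∃ q : ℕ, q.Prime ∧ (q : ℝ) ≤ X ^ (2 * (ε₁ / 3)) ∧ (q : ℤ) ∣ n + z) with htgt
  have hJε : ((2 ^ 2 ^ J : ℕ) : ℝ) < (Y : ℝ) ^ ε₁ := by
    push_cast
    refine lt_of_le_of_lt hJY2 ?_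
    apply Real.rpow_lt_rpow_of_exponent_lt (by linarith)
    linarith
  have hJδ : ((2 ^ 2 ^ J : ℕ) : ℝ) ≤ X ^ (2 * (ε₁ / 3)) := by
    push_cast
    exact hJX2
  have hyδ : (yy X : ℝ) ≤ X ^ (2 * (ε₁ / 3)) := by
    have e1 : (yy X : ℝ) ≤ L / 1000 := Nat.floor_le (by positivity)
    rw [pow_one, one_mul] at hLδ
    linarith
  have hup : SW ≤ ∑ n ∈ Fr, w n * ((if n.Prime ∧ Gd X ((n : ℤ) + x i0).natAbs ∧
        (∀ j, ∀ q : ℕ, q.Prime → (q : ℤ) ∣ n + x j → (Y : ℝ) ^ ε₁ ≤ q) ∧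
        (∀ z : ℤ, |(z : ℝ)| ≤ c * CH.RR X → z ≠ 0 → (∀ j, z ≠ x j) →
          ∃ q : ℕ, q.Prime ∧ (q : ℝ) ≤ X ^ (2 * (ε₁ / 3)) ∧ (q : ℤ) ∣ n + z)
        then 1 else 0) + (if ¬ n.Prime then 1 else 0) +
      (∑ j, if ps.Prime ∧ (ps : ℤ) ∣ n + x j ∧ n.Prime ∧ ∀ p ∈ N610.AP.PZ X S ps J, ∀ i, ¬ (p : ℤ) ∣ n + x i
        then 1 else 0) +
      (∑ k ∈ U0, if ∀ p ∈ N610.AP.PZ X S ps J, (∀ i, ¬ (p : ℤ) ∣ n + x i) ∧ ¬ (p : ℤ) ∣ n + (b' + k) then 1 else 0) +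
      (if ∃ q ∈ pr Y ζ υ, ((q ^ 2 : ℕ) : ℤ) ∣ n + x i0 then 1 else 0) +
      σ * (if n.Prime ∧ Sw X ((n : ℤ) + x i0).natAbs ∧
        (∀ p ∈ Y882.PZ Y ε₁, p ≠ ps → ∀ j, ¬ (p : ℤ) ∣ n + x j) then 1 else 0)) := by
    apply sum_le_sum
    intro n hn
    rw [hFr, mem_filter] at hn
    by_cases hPhi : Phi (n / X) = 0
    · have h8 : w n = 0 := by
        apply le_antisymm _ (hw0 n)
        refine (hwPhi n).trans ?_
        rw [hPhi, zero_mul]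
      rw [h8, zero_mul, zero_mul]
    · apply mul_le_mul_of_nonneg_left _ (hw0 n)
      exact pointwiseK k X (by linarith) ζ υ aw bw σ ε₁ hσ hb hab (by linarith) hζυ (by linarith) cw hcw3
        Gd Sw c (2 * (ε₁ / 3)) hpt ps S J hJε hJδ hyδ x i0 r hhX
        b' U0 hcov n hn.1 (Phi_supp X hX0 n hPhi) hn.2 (hhn n (Phi_supp X hX0 n hPhi)
          ((Nat.le_floor_iff (by linarith)).1 (mem_Icc.1 hn.1).2))
  simp only [mul_add, sum_add_distrib] at hup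
  -- (1)
  have b1 : ∑ n ∈ Fr, w n * (if n.Prime ∧ Gd X ((n : ℤ) + x i0).natAbs ∧
        (∀ j, ∀ q : ℕ, q.Prime → (q : ℤ) ∣ n + x j → (Y : ℝ) ^ ε₁ ≤ q) ∧
        (∀ z : ℤ, |(z : ℝ)| ≤ c * CH.RR X → z ≠ 0 → (∀ j, z ≠ x j) →
          ∃ q : ℕ, q.Prime ∧ (q : ℝ) ≤ X ^ (2 * (ε₁ / 3)) ∧ (q : ℤ) ∣ n + z)
        then 1 else 0) ≤ 2 * L * tgt.card := by
    have e1 : ∑ n ∈ Fr, w n * (if n.Prime ∧ Gd X ((n : ℤ) + x i0).natAbs ∧
        (∀ j, ∀ q : ℕ, q.Prime → (q : ℤ) ∣ n + x j → (Y : ℝ) ^ ε₁ ≤ q) ∧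
        (∀ z : ℤ, |(z : ℝ)| ≤ c * CH.RR X → z ≠ 0 → (∀ j, z ≠ x j) →
          ∃ q : ℕ, q.Prime ∧ (q : ℝ) ≤ X ^ (2 * (ε₁ / 3)) ∧ (q : ℤ) ∣ n + z)
        then 1 else 0) ≤ ∑ n ∈ Fr, (if n ∈ tgt then 2 * L else 0) := by
      apply sum_le_sum
      intro n hn
      rw [hFr, mem_filter] at hn
      split_ifs with h7 h8 h8
      · rw [mul_one]; exact hwle n hn.1
      · rw [mul_one]
        have hPhi : Phi (n / X) = 0 := by
          by_contra hc'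
          apply h8
          rw [htgt, mem_filter]
          exact ⟨hn.1, hn.2, Phi_supp X hX0 n hc', h7⟩
        refine (hwPhi n).trans ?_
        rw [hPhi, zero_mul]
      · rw [mul_zero]; positivity
      · rw [mul_zero]
    refine e1.trans ?_
    rw [← sum_filter, sum_const, nsmul_eq_mul, mul_comm]
    apply mul_le_mul_of_nonneg_left _ (by positivity)
    exact_mod_cast card_le_card (fun n hn => (mem_filter.1 hn).2)
  -- (2)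
  have b2 : ∑ n ∈ Fr, w n * (if ¬ n.Prime then 1 else 0) ≤ 8 * L * ((k + 1) * X ^ (199 / 200 : ℝ)) := by
    have e1 : ∑ n ∈ Fr, w n * (if ¬ n.Prime then (1 : ℝ) else 0) ≤
        ∑ n ∈ (Icc 1 ⌊3 * X⌋₊).filter (fun n => ¬ n.Prime), ArithmeticFunction.vonMangoldt n := by
      rw [hFr, sum_filter, sum_filter]
      apply sum_le_sum
      intro n _
      have h7 : w n ≤ ArithmeticFunction.vonMangoldt n := by
        calc w n ≤ 1 * ArithmeticFunction.vonMangoldt n :=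
              mul_le_mul_of_nonneg_right (Ps_le_one d X n hd0.le hd) ArithmeticFunction.vonMangoldt_nonneg
          _ = _ := one_mul _
      have h8 : (0 : ℝ) ≤ ArithmeticFunction.vonMangoldt n := ArithmeticFunction.vonMangoldt_nonneg
      by_cases h9 : n ≡ r [MOD W]
      · by_cases h10 : n.Prime
        · rw [if_pos h9, if_neg (not_not.2 h10), mul_zero, if_neg (not_not.2 h10)]
        · rw [if_pos h9, if_pos h10, mul_one, if_pos h10]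
          exact h7
      · rw [if_neg h9]
        split_ifs
        · exact le_rfl
        · exact h8
    refine e1.trans ((Pool.Agent.H378R2.sum_nonprime_le (3 * X) (by linarith)).trans ?_)
    have e2 : Real.sqrt (3 * X) ≤ 2 * X ^ (199 / 200 : ℝ) := by
      have h7 : Real.sqrt (3 * X) ≤ Real.sqrt (4 * X) := Real.sqrt_le_sqrt (by linarith)
      have h8 : Real.sqrt (4 * X) = 2 * X ^ (1 / 2 : ℝ) := by
        rw [Real.sqrt_mul (by norm_num), ← Real.sqrt_eq_rpow, show (4 : ℝ) = 2 ^ 2 by norm_num,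
          Real.sqrt_sq (by norm_num)]
      have h9 : X ^ (1 / 2 : ℝ) ≤ X ^ (199 / 200 : ℝ) := Real.rpow_le_rpow_of_exponent_le hX1 (by norm_num)
      rw [h8] at h7
      linarith only [h7, h9]
    calc 2 * Real.sqrt (3 * X) * Real.log (3 * X) ≤ 2 * (2 * X ^ (199 / 200 : ℝ)) * (2 * L) := by gcongr
      _ = 8 * L * (1 * X ^ (199 / 200 : ℝ)) := by ring
      _ ≤ _ := by
          apply mul_le_mul_of_nonneg_left _ (by positivity)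
          apply mul_le_mul_of_nonneg_right _ hEp0.le
          linarith
  -- (3)
  have b3 : ∑ n ∈ Fr, w n * (∑ j, if ps.Prime ∧ (ps : ℤ) ∣ n + x j ∧ n.Prime ∧
      ∀ p ∈ N610.AP.PZ X S ps J, ∀ i, ¬ (p : ℤ) ∣ n + x i then 1 else 0) ≤
      ε₁ * D / 8 * M1 + (k + 1) * X ^ (199 / 200 : ℝ) := by
    by_cases hpp : ps.Prime
    · simp_rw [mul_sum]
      rw [sum_comm]
      have hj : ∀ j ∈ (univ : Finset (Fin k)), ∑ n ∈ Fr, w n * (if ps.Prime ∧ (ps : ℤ) ∣ n + x j ∧ n.Prime ∧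
          ∀ p ∈ N610.AP.PZ X S ps J, ∀ i, ¬ (p : ℤ) ∣ n + x i then 1 else 0) ≤
          C2' / ps * (Ke * M1) + X ^ (199 / 200 : ℝ) := by
        intro j _
        have e1 := HEX ps S (hGP Ce hZe) hS hpp J hJ1 hJX (hJE Ce (by rw [hE]; omega)) hJL r x j
        have e2 : ∑ n ∈ Fr, w n * (if ps.Prime ∧ (ps : ℤ) ∣ n + x j ∧ n.Prime ∧
            ∀ p ∈ N610.AP.PZ X S ps J, ∀ i, ¬ (p : ℤ) ∣ n + x i then 1 else 0) ≤
            ∑ n ∈ (Icc 1 ⌊3 * X⌋₊).filter (fun n => n ≡ r [MOD W] ∧ (ps : ℤ) ∣ n + x j ∧ n.Prime ∧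
              ∀ p ∈ N610.AP.PZ X S ps J, ∀ i, ¬ (p : ℤ) ∣ n + x i), Phi (n / X) * ArithmeticFunction.vonMangoldt n := by
          rw [hFr, sum_filter, sum_filter]
          apply sum_le_sum
          intro n _
          by_cases h7 : n ≡ r [MOD W]
          · by_cases h8 : (ps : ℤ) ∣ n + x j ∧ n.Prime ∧ ∀ p ∈ N610.AP.PZ X S ps J, ∀ i, ¬ (p : ℤ) ∣ n + x i
            · rw [if_pos h7, if_pos ⟨hpp, h8⟩, if_pos ⟨h7, h8⟩, mul_one]
              exact hwPhi n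
            · rw [if_pos h7, if_neg (fun h => h8 h.2), if_neg (fun h => h8 h.2), mul_zero]
          · rw [if_neg h7, if_neg (fun h => h7 h.1)]
        refine e2.trans (e1.trans ?_)
        apply add_le_add_left
        exact mul_le_mul_of_nonneg_left hM1P (by positivity)
      refine (sum_le_sum hj).trans ?_
      rw [sum_const, card_univ, Fintype.card_fin, nsmul_eq_mul]
      have hpsZ : (Z : ℝ) ≤ ps := by
        rcases hps with h | h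
        · rw [h] at hpp; exact absurd hpp Nat.not_prime_one
        · exact_mod_cast h.2.le
      have hps0 : (0 : ℝ) < ps := by exact_mod_cast hpp.pos
      have e3 : C2 / ps ≤ ε₁ * D / 8 := by
        rw [div_le_iff₀ hps0]
        have : 8 * C2 / (ε₁ * D) ≤ ps := hZC.trans hpsZ
        rw [div_le_iff₀ (by positivity)] at this
        linarith only [this]
      calc (k : ℝ) * (C2' / ps * (Ke * M1) + X ^ (199 / 200 : ℝ)) = C2 / ps * M1 + k * X ^ (199 / 200 : ℝ) := by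
            rw [hC2d]; ring
        _ ≤ ε₁ * D / 8 * M1 + (k + 1) * X ^ (199 / 200 : ℝ) := by
            apply add_le_add (mul_le_mul_of_nonneg_right e3 hM10)
            apply mul_le_mul_of_nonneg_right _ hEp0.le
            linarith
    · have e1 : ∑ n ∈ Fr, w n * (∑ j, if ps.Prime ∧ (ps : ℤ) ∣ n + x j ∧ n.Prime ∧
          ∀ p ∈ N610.AP.PZ X S ps J, ∀ i, ¬ (p : ℤ) ∣ n + x i then (1 : ℝ) else 0) = 0 := by
        apply sum_eq_zero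
        intro n _
        rw [sum_eq_zero, mul_zero]
        intro j _
        rw [if_neg (fun h => hpp h.1)]
      rw [e1]
      positivity
  -- (4)
  have b4 : ∑ n ∈ Fr, w n * (∑ k ∈ U0, if ∀ p ∈ N610.AP.PZ X S ps J, (∀ i, ¬ (p : ℤ) ∣ n + x i) ∧
      ¬ (p : ℤ) ∣ n + (b' + k)
      then 1 else 0) ≤ ε₁ * D / 8 * M1 + 2 * c₃ * L ^ 2 * (X / ((W.totient : ℝ) * L ^ (4 * k + 20))) := by
    simp_rw [mul_sum]
    rw [sum_comm]
    have e1 : ∀ u ∈ U0, ∑ n ∈ Fr, w n * (if ∀ p ∈ N610.AP.PZ X S ps J, (∀ i, ¬ (p : ℤ) ∣ n + x i) ∧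
        ¬ (p : ℤ) ∣ n + (b' + u)
        then (1 : ℝ) else 0) ≤ C1 * (l / L) * M1 + 2 * L * (X / ((W.totient : ℝ) * L ^ (4 * k + 20))) := by
      intro u hu
      obtain ⟨g1, g2, g3⟩ := hU1 u hu
      have e2 := HSV ps S (hGP Cs hZs) hS hpairsTT J hJ1 hJX (hJE Cs (by rw [hE]; omega)) hJL r x (b' + u) hr hx9 (by
        push_cast
        have := abs_add_le (b' : ℝ) (u : ℝ)
        rw [abs_of_nonneg (Nat.cast_nonneg u : (0 : ℝ) ≤ (u : ℝ))] at this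
        have h7 : 0 ≤ L ^ 2 := by positivity
        linarith only [this, h7, g1, hb']) g2 g3
      have e3 : ∑ n ∈ Fr, w n * (if ∀ p ∈ N610.AP.PZ X S ps J, (∀ i, ¬ (p : ℤ) ∣ n + x i) ∧
        ¬ (p : ℤ) ∣ n + (b' + u)
        then (1 : ℝ) else 0) ≤ ∑ n ∈ (Icc 1 ⌊3 * X⌋₊).filter (fun n : ℕ => n ≡ r [MOD W] ∧
        ∀ p ∈ N610.AP.PZ X S ps J, (∀ i, ¬ (p : ℤ) ∣ n + x i) ∧ ¬ (p : ℤ) ∣ n + (b' + u)),
        Phi (n / X) * ArithmeticFunction.vonMangoldt n := by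
        rw [hFr, sum_filter, sum_filter]
        apply sum_le_sum
        intro n _
        by_cases h7 : n ≡ r [MOD W]
        · by_cases h8 : ∀ p ∈ N610.AP.PZ X S ps J, (∀ i, ¬ (p : ℤ) ∣ n + x i) ∧ ¬ (p : ℤ) ∣ n + (b' + u)
          · rw [if_pos h7, if_pos h8, if_pos ⟨h7, h8⟩, mul_one]
            exact hwPhi n
          · rw [if_pos h7, if_neg h8, if_neg (fun h => h8 h.2), mul_zero]
        · rw [if_neg h7, if_neg (fun h => h7 h.1)]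
      refine e3.trans (e2.trans ?_)
      have hl0 : 0 < l := by linarith
      apply add_le_add
      · calc C1' * (l / L) * (LPhi X / W.totient * PG) ≤ C1' * (l / L) * (Ke * M1) :=
              mul_le_mul_of_nonneg_left hM1P (by positivity)
          _ = C1 * (l / L) * M1 := by rw [hC1d]; ring
      · exact mul_le_mul_of_nonneg_left hAL (by positivity)
    refine (sum_le_sum e1).trans ?_
    rw [sum_const, nsmul_eq_mul]
    have hl0 : 0 < l := by linarith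
    have e4 : (U0.card : ℝ) ≤ c₃ * L := by
      refine hU0.trans ?_
      exact div_le_self (by positivity) hl1
    calc (U0.card : ℝ) * (C1 * (l / L) * M1 + 2 * L * (X / ((W.totient : ℝ) * L ^ (4 * k + 20)))) =
        (U0.card : ℝ) * (C1 * (l / L) * M1) + (U0.card : ℝ) * (2 * L * (X / ((W.totient : ℝ) * L ^ (4 * k + 20)))) := by ring
      _ ≤ (c₃ * L / l) * (C1 * (l / L) * M1) + (c₃ * L) * (2 * L * (X / ((W.totient : ℝ) * L ^ (4 * k + 20)))) := by gcongr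
      _ = c₃ * C1 * M1 + 2 * c₃ * L ^ 2 * (X / ((W.totient : ℝ) * L ^ (4 * k + 20))) := by
          field_simp
      _ = ε₁ * D / 8 * M1 + 2 * c₃ * L ^ 2 * (X / ((W.totient : ℝ) * L ^ (4 * k + 20))) := by
          have : c₃ * C1 = ε₁ * D / 8 := by
            rw [hc₃]
            field_simp
          rw [this]
  -- (5)
  have b5 : ∑ n ∈ Fr, w n * (if ∃ q ∈ pr Y ζ υ, ((q ^ 2 : ℕ) : ℤ) ∣ n + x i0 then 1 else 0) ≤
      (k + 1) * X ^ (199 / 200 : ℝ) := by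
    have e1 : ∑ n ∈ Fr, w n * (if ∃ q ∈ pr Y ζ υ, ((q ^ 2 : ℕ) : ℤ) ∣ n + x i0 then (1 : ℝ) else 0) ≤
        ∑ n ∈ (Icc 1 ⌊3 * X⌋₊).filter (fun n : ℕ => ∃ q ∈ pr Y ζ υ, ((q ^ 2 : ℕ) : ℤ) ∣ n + x i0),
          Phi (n / X) * ArithmeticFunction.vonMangoldt n := by
      rw [hFr, sum_filter, sum_filter]
      apply sum_le_sum
      intro n _
      have := (hw0 n).trans (hwPhi n)
      by_cases h7 : ∃ q ∈ pr Y ζ υ, ((q ^ 2 : ℕ) : ℤ) ∣ n + x i0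
      · rw [if_pos h7, if_pos h7, mul_one]
        split_ifs
        · exact hwPhi n
        · exact this
      · rw [if_neg h7, if_neg h7, mul_zero, ite_self]
    refine e1.trans ((HSQ (x i0)).trans ?_)
    calc X ^ (1 - ζ / 4) ≤ 1 * X ^ (199 / 200 : ℝ) := by
          rw [one_mul]
          apply Real.rpow_le_rpow_of_exponent_le hX1
          linarith
      _ ≤ _ := by
          apply mul_le_mul_of_nonneg_right _ hEp0.le
          linarith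
  -- (6)
  have b6 : ∑ n ∈ Fr, w n * (σ * (if n.Prime ∧ Sw X ((n : ℤ) + x i0).natAbs ∧
        (∀ p ∈ Y882.PZ Y ε₁, p ≠ ps → ∀ j, ¬ (p : ℤ) ∣ n + x j) then 1 else 0)) ≤
      σ * (ε₁ * (Bs + θ) * M1 + X / ((W.totient : ℝ) * L ^ (4 * k + 10))) := by
    have e1 := HS ps S (hGP Zs hZZ) hS hpairs x i0 r hHh hr hrh
    have e2 : ∑ n ∈ Fr, w n * (σ * (if n.Prime ∧ Sw X ((n : ℤ) + x i0).natAbs ∧
        (∀ p ∈ Y882.PZ Y ε₁, p ≠ ps → ∀ j, ¬ (p : ℤ) ∣ n + x j) then (1 : ℝ) else 0)) =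
        σ * ∑ n ∈ (Icc 1 ⌊3 * X⌋₊).filter (fun n : ℕ => n ≡ r [MOD W] ∧ n.Prime ∧ Sw X ((n : ℤ) + x i0).natAbs ∧
          ∀ p ∈ Y882.PZ Y ε₁, p ≠ ps → ∀ j, ¬ (p : ℤ) ∣ n + x j),
          Ps d X n * ArithmeticFunction.vonMangoldt n := by
      rw [hFr, sum_filter, sum_filter, mul_sum]
      apply sum_congr rfl
      intro n _
      by_cases h7 : n ≡ r [MOD W]
      · by_cases h8 : n.Prime ∧ Sw X ((n : ℤ) + x i0).natAbs ∧
          ∀ p ∈ Y882.PZ Y ε₁, p ≠ ps → ∀ j, ¬ (p : ℤ) ∣ n + x j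
        · rw [if_pos h7, if_pos h8, if_pos ⟨h7, h8⟩]
          simp only [hw]
          ring
        · rw [if_pos h7, if_neg h8, if_neg (fun h => h8 h.2)]
          ring
      · rw [if_neg h7, if_neg (fun h => h7 h.1), mul_zero]
    rw [e2]
    exact mul_le_mul_of_nonneg_left e1 hσ
  -- conclusion
  have hXe2 : X ^ (199 / 200 : ℝ) ≤ (k + 1) * X ^ (199 / 200 : ℝ) := by
    calc X ^ (199 / 200 : ℝ) = 1 * X ^ (199 / 200 : ℝ) := (one_mul _).symm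
      _ ≤ _ := by
          apply mul_le_mul_of_nonneg_right _ hEp0.le
          linarith
  have hg2 : 0 ≤ ε₁ * D * M1 := by positivity
  have hfinal := fin_num2 L M1 ε₁ D (A0 * c₂) θ σ Bs (κ₀ * Q) (X / ((W.totient : ℝ) * L ^ (4 * k + 20)))
    (X / ((W.totient : ℝ) * L ^ (4 * k + 10))) ((k + 1) * X ^ (199 / 200 : ℝ)) c₃ (tgt.card : ℝ)
    (X ^ (199 / 200 : ℝ)) SW _ _ _ _ _ _
    hL100 (by positivity) hlow hup b1 b2 b3 b4 b5 b6 hθD hD r1' r2' r3' hM1low hXe2 hg2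
  have hWX : (W : ℝ) ≤ X ^ (7 / 5000 : ℝ) :=
    le_trans (by exact_mod_cast Nat.le_of_dvd (primorial_pos _) (WW_dvd_primorial X S ps))
      (primorial_yy_le' X hX1)
  have hWp : ∀ p : ℕ, p.Prime → p ∣ W → (p : ℝ) ≤ L := by
    intro p hp hpW
    rw [hW] at hpW
    unfold WW at hpW
    obtain ⟨q, hq, hpq⟩ := hp.prime.exists_mem_finset_dvd hpW
    unfold PW at hq
    rw [mem_filter, mem_Icc] at hq
    have h7 : p = q := (Nat.prime_dvd_prime_iff_eq hp hq.2.1).1 hpq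
    have h8 : (q : ℝ) ≤ yy X := by exact_mod_cast hq.1.2
    have h9 : (yy X : ℝ) ≤ L / 1000 := Nat.floor_le (by positivity)
    rw [h7]
    linarith
  refine ⟨W, ps, r, hW0, hWX, hWp, tgt, fun n hn => ?_, hfinal.1, ?_⟩
  · rw [htgt, mem_filter, mem_Icc] at hn
    exact ⟨hn.2.1, hn.1.2, hn.2.2⟩
  · have e1 : (kap d / 2) * (X / W.totient * G1) ≤ M1 := by
      calc (kap d / 2) * (X / W.totient * G1) = (kap d / 2 * X) / W.totient * G1 := by ring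
        _ ≤ LPs d X / W.totient * G1 := by gcongr
    have e2 : ε₁ * D * ((kap d / 2) * (X / W.totient * G1)) ≤ 8 * L * tgt.card :=
      le_trans (mul_le_mul_of_nonneg_left e1 (by positivity)) hfinal.2
    have e3 : ε₁ * D * (kap d / 2) / 8 * (X / (W.totient * L) * G1) =
        (ε₁ * D * ((kap d / 2) * (X / W.totient * G1))) / (8 * L) := by
      field_simp
    rw [e3, div_le_iff₀ (by positivity)]
    calc _ ≤ _ := e2
      _ = _ := by ring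

end Pool.Agent.J4H73.AQ
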