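import Pool.Agent.J4H73.AQ.Eng

/-! The main term in terms of the sifting densities. -/

set_option autoImplicit false
set_option maxHeartbeats 4000000

open Finset Filter

namespace Pool.Agent.J4H73.AQ

open Pool.Agent.H378R2 Pool.Agent.H378R2.LSBV Pool.Agent.N610.AP Pool.Agent.Y882
open Pool.Agent.J4H73.BV Pool.Agent.J4H73.CH Pool.Agent.J4H73.CG Pool.Agent.J4H73.KT
open Pool.Agent.W23.DC (Mer pr SF tt)
open Pool.Agent

/-- the classes modulo `p` in which `n` or one of the `n + x j` is divisible by `p` -/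
def Zx {k : ℕ} (x : Fin k → ℤ) (p : ℕ) : Finset ℕ := insert 0 (Rx x p)

theorem card_Zx {k : ℕ} (x : Fin k → ℤ) (p : ℕ) : (Zx x p).card = (Rx x p).card + 1 := by
  unfold Zx
  rw [card_insert_of_notMem]
  intro h
  exact ((mem_Rx x p 0).1 h).1 rfl

theorem mem_Zx {k : ℕ} (x : Fin k → ℤ) (p n : ℕ) (hp : 0 < p) :
    n % p ∈ Zx x p ↔ (p ∣ n ∨ ∃ j, (p : ℤ) ∣ n + x j) := by
  unfold Zx
  rw [mem_insert, mod_mem_Rx x p n hp, ← Nat.dvd_iff_mod_eq_zero]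
  constructor
  · rintro (h | h)
    · exact Or.inl h
    · exact Or.inr h.2
  · rintro (h | h)
    · exact Or.inl h
    · by_cases h' : p ∣ n
      · exact Or.inl h'
      · exact Or.inr ⟨h', h⟩

theorem Zx_lt {k : ℕ} (x : Fin k → ℤ) (p : ℕ) (hp : 0 < p) : ∀ c ∈ Zx x p, c < p := by
  intro c hc
  unfold Zx at hc
  rcases mem_insert.1 hc with h | h
  · omega
  · exact (Rx_range x p hp c h).2

theorem Zx_props {k : ℕ} (x : Fin k → ℤ) (p : ℕ) (hp : p.Prime)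
    (hadm : ∃ a : ℤ, ¬ (p : ℤ) ∣ a ∧ ∀ j, ¬ (p : ℤ) ∣ a + x j) :
    (Zx x p).card ≤ k + 1 ∧ (Zx x p).card < p ∧ ∀ c ∈ Zx x p, c < p := by
  refine ⟨?_, ?_, Zx_lt x p hp.pos⟩
  · rw [card_Zx]
    exact Nat.add_le_add_right (card_Rx_le x p) 1
  · obtain ⟨a, ha, haj⟩ := hadm
    obtain ⟨n, hn⟩ : ∃ n : ℕ, (n : ℤ) ≡ a [ZMOD p] := by
      refine ⟨(a % p).toNat, ?_⟩
      rw [Int.toNat_of_nonneg (Int.emod_nonneg a (by exact_mod_cast hp.ne_zero))]
      exact Int.mod_modEq a p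
    have hnot : n % p ∉ Zx x p := by
      rw [mem_Zx x p n hp.pos]
      push Not
      constructor
      · intro h
        apply ha
        have h1 : (p : ℤ) ∣ n := by exact_mod_cast h
        exact (Int.ModEq.dvd_iff hn).1 h1
      · intro j h
        apply haj j
        exact (Int.ModEq.dvd_iff (hn.add_right (x j))).1 h
    have h1 : Zx x p ⊂ range p := by
      refine ⟨fun c hc => mem_range.2 (Zx_lt x p hp.pos c hc), fun h => ?_⟩
      exact hnot (h (mem_range.2 (Nat.mod_lt _ hp.pos)))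
    have h2 := card_lt_card h1
    rwa [card_range] at h2

/-- the densities -/
theorem dens_eq {k : ℕ} (x : Fin k → ℤ) (p : ℕ) (hp : p.Prime) :
    1 - ((Zx x p).card : ℝ) / p = (1 - 1 / (p : ℝ)) * (1 - ((Rx x p).card : ℝ) * (1 / ((p : ℝ) - 1))) := by
  rw [card_Zx]
  push_cast
  have h1 : (2 : ℝ) ≤ p := by exact_mod_cast hp.two_le
  have h2 : (p : ℝ) - 1 ≠ 0 := by
    have : (0 : ℝ) < (p : ℝ) - 1 := by linarith
    exact this.ne'
  have h3 : (p : ℝ) ≠ 0 := by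
    have : (0 : ℝ) < (p : ℝ) := by linarith
    exact this.ne'
  field_simp
  ring

theorem fac01 (p : ℕ) (hp : p.Prime) : 0 ≤ 1 - 1 / (p : ℝ) ∧ 1 - 1 / (p : ℝ) ≤ 1 := by
  have h1 : (2 : ℝ) ≤ p := by exact_mod_cast hp.two_le
  have h2 : 1 / (p : ℝ) ≤ 1 / 2 := one_div_le_one_div_of_le (by norm_num) h1
  have h3 : 0 ≤ 1 / (p : ℝ) := by positivity
  constructor <;> linarith

/-- the primes `≤ y`, with and without the divisors of `W` -/
theorem split_W (W y : ℕ) (hW : 0 < W) (hy : ∀ p : ℕ, p.Prime → p ∣ W → p ≤ y) :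
    Pool.Agent.H318R2.Cr.V y * W = W.totient * ∏ p ∈ Pf W y, (1 - 1 / (p : ℝ)) := by
  classical
  unfold Pool.Agent.H318R2.Cr.V
  have e1 := prod_filter_mul_prod_filter_not (Pool.Agent.H318R2.Cr.Pz y) (fun p => p ∣ W)
    (fun p => (1 - 1 / (p : ℝ)))
  have e2 : (Pool.Agent.H318R2.Cr.Pz y).filter (fun p => p ∣ W) = W.primeFactors := by
    ext p
    unfold Pool.Agent.H318R2.Cr.Pz
    simp only [mem_filter, mem_Ioc, Nat.mem_primeFactors]
    constructor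
    · rintro ⟨⟨⟨h1, h2⟩, h3⟩, h4⟩
      exact ⟨h3, h4, hW.ne'⟩
    · rintro ⟨h1, h2, _⟩
      exact ⟨⟨⟨h1.pos, hy p h1 h2⟩, h1⟩, h2⟩
  have e3 : (Pool.Agent.H318R2.Cr.Pz y).filter (fun p => ¬ p ∣ W) = Pf W y := by
    ext p
    unfold Pool.Agent.H318R2.Cr.Pz Pf
    simp only [mem_filter, mem_Ioc, mem_Icc]
    constructor
    · rintro ⟨⟨⟨h1, h2⟩, h3⟩, h4⟩
      exact ⟨⟨by omega, h2⟩, h3, h4⟩
    · rintro ⟨⟨h1, h2⟩, h3, h4⟩
      exact ⟨⟨⟨by omega, h2⟩, h3⟩, h4⟩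
  rw [e2, e3] at e1
  have e4 : (W.totient : ℝ) = W * ∏ p ∈ W.primeFactors, (1 - 1 / (p : ℝ)) := by
    have h := Nat.totient_eq_mul_prod_factors W
    have h' : ((W.totient : ℚ) : ℝ) = ((W * ∏ p ∈ W.primeFactors, (1 - (p : ℚ)⁻¹) : ℚ) : ℝ) := by rw [h]
    push_cast at h'
    rw [h']
    congr 1
    apply prod_congr rfl
    intro p _
    rw [one_div]
  rw [← e1, e4]
  ring

/-- **The main term in terms of the sifting densities.** -/
theorem convert_main (k : ℕ) (ε₁ : ℝ) (hε : 0 < ε₁) (hε1 : ε₁ ≤ 1) : ∃ c : ℝ, 0 < c ∧ ∀ᶠ X : ℝ in atTop,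
    ∀ W ps : ℕ, 0 < W → (∀ p : ℕ, p.Prime → p ∣ W → (p : ℝ) ≤ Real.log X) → ∀ x : Fin k → ℤ,
    c * (X / W * ∏ p ∈ Pf W ⌊X ^ (ε₁ / 3)⌋₊, (1 - ((Zx x p).card : ℝ) / p)) ≤
      X / (W.totient * Real.log X) * ∏ p ∈ Y882.PZ ⌊X⌋₊ ε₁, (1 - gR W ps (Rx x) p) := by
  classical
  obtain ⟨N0, H⟩ := Pool.Agent.W378.DC.MP (ε₁ / 3) 1 (by positivity) one_pos
  obtain ⟨c₁, c₂, hc₁, hc12, hV⟩ := Pool.Agent.H318R2.Cr.cz_bounds
  have hc₂ : 0 < c₂ := by linarith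
  refine ⟨ε₁ * Real.exp (-(6 * k)) / (6 * c₂), by positivity, ?_⟩
  filter_upwards [floor_facts, eventually_ge_atTop (N0 : ℝ),
    (tendsto_rpow_atTop (show 0 < ε₁ / 6 by positivity)).eventually_ge_atTop (2 * k + 4),
    Real.tendsto_log_atTop.eventually_ge_atTop 1,
    Pool.Agent.H398R2.BV.ev_log 1 1 (ε₁ / 6) (by positivity)]
    with X hf hXN hXk hL1 hLε
  obtain ⟨f1, f2, f3, f4⟩ := hf
  intro W ps hW hWp x
  set Y := ⌊X⌋₊ with hY
  set L := Real.log X with hL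
  have hYr : (100 : ℝ) ≤ Y := by exact_mod_cast f1
  have hX0 : 0 < X := by linarith
  have hX1 : 1 ≤ X := by linarith
  have hL0 : 0 < L := by linarith
  have hk0 : (0 : ℝ) ≤ k := Nat.cast_nonneg _
  set y := ⌊X ^ (ε₁ / 3)⌋₊ with hy
  have hy6 : X ^ (ε₁ / 6) + 1 ≤ X ^ (ε₁ / 3) := by
    have e : X ^ (ε₁ / 3) = X ^ (ε₁ / 6) * X ^ (ε₁ / 6) := by
      rw [← Real.rpow_add hX0]
      congr 1
      ring
    rw [e]
    nlinarith
  have hyX : X ^ (ε₁ / 6) ≤ (y : ℝ) := by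
    have := Nat.lt_floor_add_one (X ^ (ε₁ / 3))
    rw [← hy] at this
    linarith
  have hy2 : 2 ≤ y := by
    have h1 : (2 : ℝ) ≤ y := by linarith
    exact_mod_cast h1
  have hylog : ε₁ / 6 * L ≤ Real.log y := by
    have h1 : Real.log (X ^ (ε₁ / 6)) ≤ Real.log y := Real.log_le_log (by positivity) hyX
    rwa [Real.log_rpow hX0] at h1
  have hWy : ∀ p : ℕ, p.Prime → p ∣ W → p ≤ y := by
    intro p hp hpW
    have h1 := hWp p hp hpW
    rw [pow_one, one_mul] at hLε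
    have h2 : (p : ℝ) ≤ y := by linarith
    exact_mod_cast h2
  have hW0r : (0 : ℝ) < W := by exact_mod_cast hW
  have hφ0 : (0 : ℝ) < W.totient := by exact_mod_cast Nat.totient_pos.2 hW
  set A := ∏ p ∈ Pf W y, (1 - 1 / (p : ℝ)) with hA
  have hPfp : ∀ p ∈ Pf W y, p.Prime ∧ ¬ p ∣ W ∧ p ≤ y := by
    intro p hp
    unfold Pf at hp
    rw [mem_filter, mem_Icc] at hp
    exact ⟨hp.2.1, hp.2.2, hp.1.2⟩
  have hA0 : 0 ≤ A := prod_nonneg fun p hp => (fac01 p (hPfp p hp).1).1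
  have hAle : A ≤ 6 * c₂ / (ε₁ * L) * (W / W.totient) := by
    have e1 := split_W W y hW hWy
    rw [← hA] at e1
    have e2 : A = Pool.Agent.H318R2.Cr.V y * (W / W.totient) := by
      field_simp
      linarith
    rw [e2]
    apply mul_le_mul_of_nonneg_right _ (by positivity)
    have h1 := (hV y hy2).2
    have h2 := Pool.Agent.H318R2.Cr.V_pos y
    rw [le_div_iff₀ (by positivity)]
    calc Pool.Agent.H318R2.Cr.V y * (ε₁ * L) = 6 * (Pool.Agent.H318R2.Cr.V y * (ε₁ / 6 * L)) := by ring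
      _ ≤ 6 * (Pool.Agent.H318R2.Cr.V y * Real.log y) := by gcongr
      _ ≤ _ := by linarith
  -- the densities
  set g : ℕ → ℝ := gR W ps (Rx x) with hg
  have hg01 : ∀ p : ℕ, p.Prime → 0 ≤ 1 - g p ∧ 1 - g p ≤ 1 := fun p hp => gR_Rx_le_one W ps x p hp
  have hu : ∀ p ∈ Pf W y, 0 ≤ 1 - ((Rx x p).card : ℝ) * (1 / ((p : ℝ) - 1)) ∧
      1 - ((Rx x p).card : ℝ) * (1 / ((p : ℝ) - 1)) ≤ 1 - g p := by
    intro p hp
    obtain ⟨hpp, hpW, -⟩ := hPfp p hp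
    have h1 : (2 : ℝ) ≤ p := by exact_mod_cast hpp.two_le
    have h2 : (0 : ℝ) < (p : ℝ) - 1 := by linarith
    have h3 : ((Rx x p).card : ℝ) ≤ (p : ℝ) - 1 := by
      have h4 : ((Rx x p).card : ℝ) ≤ ((p - 1 : ℕ) : ℝ) := by exact_mod_cast card_Rx_le' x p hpp.pos
      rwa [Nat.cast_sub hpp.one_lt.le, Nat.cast_one] at h4
    constructor
    · rw [mul_one_div]
      have : ((Rx x p).card : ℝ) / ((p : ℝ) - 1) ≤ 1 := by
        rw [div_le_one h2]
        exact h3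
      linarith
    · rw [hg]
      unfold gR
      split_ifs
      · have : 0 ≤ ((Rx x p).card : ℝ) * (1 / ((p : ℝ) - 1)) := by positivity
        linarith
      · exact le_rfl
  have hB : ∏ p ∈ Pf W y, (1 - ((Rx x p).card : ℝ) * (1 / ((p : ℝ) - 1))) ≤ ∏ p ∈ Y882.PZ Y (ε₁ / 3), (1 - g p) := by
    refine (prod_le_prod (fun p hp => (hu p hp).1) (fun p hp => (hu p hp).2)).trans ?_
    have e1 : ∏ p ∈ Pf W y, (1 - g p) = ∏ p ∈ Pool.Agent.H318R2.Cr.Pz y, (1 - g p) := by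
      apply prod_subset
      · intro p hp
        unfold Pool.Agent.H318R2.Cr.Pz
        rw [mem_filter, mem_Ioc]
        exact ⟨⟨(hPfp p hp).1.pos, (hPfp p hp).2.2⟩, (hPfp p hp).1⟩
      · intro p hp hn
        unfold Pool.Agent.H318R2.Cr.Pz at hp
        rw [mem_filter, mem_Ioc] at hp
        have h1 : p ∣ W := by
          by_contra hc
          apply hn
          unfold Pf
          rw [mem_filter, mem_Icc]
          exact ⟨⟨hp.1.1, hp.1.2⟩, hp.2, hc⟩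
        rw [hg]
        unfold gR
        rw [if_pos (Or.inl h1), sub_zero]
    rw [e1]
    apply prod_le_prod_of_subset_of_le_one
    · intro p hp
      have h1 := (mem_PZY_iff (by omega) (by linarith)).1 hp
      unfold Pool.Agent.H318R2.Cr.Pz
      rw [mem_filter, mem_Ioc]
      refine ⟨⟨h1.1.pos, Nat.le_floor ?_⟩, h1.1⟩
      refine h1.2.le.trans ?_
      exact Real.rpow_le_rpow (by positivity) f2 (by positivity)
    · intro p hp
      unfold Pool.Agent.H318R2.Cr.Pz at hp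
      exact (hg01 p (mem_filter.1 hp).2).1
    · intro p hp _
      unfold Pool.Agent.H318R2.Cr.Pz at hp
      exact (hg01 p (mem_filter.1 hp).2).2
  -- large primes
  set Q := pr Y (ε₁ / 3) ε₁ with hQ
  have hQp : ∀ p ∈ Q, p.Prime ∧ (Y : ℝ) ^ (ε₁ / 3) ≤ p := by
    intro p hp
    rw [hQ] at hp
    unfold pr at hp
    rw [mem_filter] at hp
    refine ⟨hp.2.1, ?_⟩
    by_contra hc
    push Not at hc
    have := (tt_lt Y p (ε₁ / 3) (by omega) hp.2.1.pos).2 hc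
    linarith [hp.2.2.1]
  have hYk : 2 * (k : ℝ) + 2 ≤ (Y : ℝ) ^ (ε₁ / 3) := by
    have h1 : 2 * (k : ℝ) + 2 ≤ X ^ (ε₁ / 6) := by linarith
    refine h1.trans ?_
    calc X ^ (ε₁ / 6) = (X ^ (1 / 2 : ℝ)) ^ (ε₁ / 3) := by
          rw [← Real.rpow_mul hX0.le]
          congr 1
          ring
      _ ≤ _ := Real.rpow_le_rpow (by positivity) f4 (by positivity)
  have hlow : Real.exp (-(6 * k)) ≤ ∏ p ∈ Q, (1 - g p) := by
    have h1 := H Y (Nat.le_floor hXN) (ε₁ / 3) ε₁ le_rfl (by linarith) hε1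
    have h2 : ∑ p ∈ Q, 1 / ((p : ℝ) - 1) ≤ 3 := by
      have h3 := (abs_le.1 h1).2
      have h4 : Real.log (ε₁ / (ε₁ / 3)) ≤ 2 := by
        rw [show ε₁ / (ε₁ / 3) = 3 by field_simp]
        rw [Real.log_le_iff_le_exp (by norm_num)]
        have := Real.add_one_le_exp (2 : ℝ)
        linarith
      linarith
    have h3 : Real.exp (-(6 * k)) ≤ Real.exp (∑ p ∈ Q, -(2 * k * (1 / ((p : ℝ) - 1)))) := by
      apply Real.exp_le_exp.2
      rw [sum_neg_distrib, ← mul_sum]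
      nlinarith
    refine h3.trans ?_
    rw [Real.exp_sum]
    apply Finset.prod_le_prod (fun p _ => (Real.exp_pos _).le)
    intro p hp
    obtain ⟨hpp, hpY⟩ := hQp p hp
    have h4 : 2 * (k : ℝ) + 1 ≤ (p : ℝ) - 1 := by linarith
    have h5 : (0 : ℝ) < (p : ℝ) - 1 := by linarith
    have h6 : g p ≤ k * (1 / ((p : ℝ) - 1)) := by
      have := gR_le W ps (Rx x) k p (card_Rx_le x p) hpp
      rwa [mul_one_div]
    have h7 : (k : ℝ) * (1 / ((p : ℝ) - 1)) ≤ 1 / 2 := by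
      rw [mul_one_div, div_le_div_iff₀ h5 (by norm_num)]
      linarith
    have h8 := exp_le_one_sub (x := (k : ℝ) * (1 / ((p : ℝ) - 1))) (by positivity) h7
    have h9 : -(2 * (k : ℝ) * (1 / ((p : ℝ) - 1))) = -(2 * ((k : ℝ) * (1 / ((p : ℝ) - 1)))) := by ring
    rw [h9]
    linarith
  have hBnn : 0 ≤ ∏ p ∈ Y882.PZ Y (ε₁ / 3), (1 - g p) := prod_nonneg fun p hp =>
    (hg01 p ((mem_PZY_iff (by omega) (by linarith)).1 hp).1).1
  have hG1 : Real.exp (-(6 * k)) * ∏ p ∈ Y882.PZ Y (ε₁ / 3), (1 - g p) ≤ ∏ p ∈ Y882.PZ Y ε₁, (1 - g p) := by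
    have e1 : Y882.PZ Y ε₁ = Y882.PZ Y (ε₁ / 3) ∪ Q := by
      ext p
      rw [mem_union, hQ]
      unfold Y882.PZ pr
      simp only [mem_filter, mem_Icc]
      constructor
      · rintro ⟨h1, h2, h3⟩
        by_cases h4 : tt Y p < ε₁ / 3
        · exact Or.inl ⟨h1, h2, h4⟩
        · exact Or.inr ⟨h1, h2, not_lt.1 h4, h3⟩
      · rintro (⟨h1, h2, h3⟩ | ⟨h1, h2, h3, h4⟩)
        · exact ⟨h1, h2, by linarith⟩
        · exact ⟨h1, h2, h4⟩
    have hdisj : Disjoint (Y882.PZ Y (ε₁ / 3)) Q := by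
      rw [Finset.disjoint_left]
      intro p hp hpQ
      rw [hQ] at hpQ
      unfold Y882.PZ at hp
      unfold pr at hpQ
      rw [mem_filter] at hp hpQ
      linarith [hp.2.2, hpQ.2.2.1]
    rw [e1, prod_union hdisj, mul_comm]
    exact mul_le_mul_of_nonneg_left hlow hBnn
  -- conclusion
  have e0 : ∏ p ∈ Pf W y, (1 - ((Zx x p).card : ℝ) / p) =
      A * ∏ p ∈ Pf W y, (1 - ((Rx x p).card : ℝ) * (1 / ((p : ℝ) - 1))) := by
    rw [hA, ← prod_mul_distrib]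
    exact prod_congr rfl fun p hp => dens_eq x p (hPfp p hp).1
  rw [e0]
  set P2 := ∏ p ∈ Pf W y, (1 - ((Rx x p).card : ℝ) * (1 / ((p : ℝ) - 1))) with hP2
  have hP20 : 0 ≤ P2 := prod_nonneg fun p hp => (hu p hp).1
  set P3 := ∏ p ∈ Y882.PZ Y (ε₁ / 3), (1 - g p) with hP3
  set G1 := ∏ p ∈ Y882.PZ Y ε₁, (1 - g p) with hG1d
  calc ε₁ * Real.exp (-(6 * k)) / (6 * c₂) * (X / W * (A * P2)) ≤
      ε₁ * Real.exp (-(6 * k)) / (6 * c₂) * (X / W * ((6 * c₂ / (ε₁ * L) * (W / W.totient)) * P3)) := by gcongr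
    _ = X / (W.totient * L) * (Real.exp (-(6 * k)) * P3) := by
        field_simp
    _ ≤ _ := mul_le_mul_of_nonneg_left hG1 (by positivity)

end Pool.Agent.J4H73.AQ
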