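import Pool.Agent.J4H73.AQ.Gb

/-! The gap form. -/

set_option autoImplicit false
set_option maxHeartbeats 4000000

open Finset Filter

namespace Pool.Agent.J4H73.AQ

open Pool.Agent.J4H73.CG Pool.Agent.J4H73.CP Pool.Agent

open Classical in
/-- the isolated primes `p` in a class with `p + h` a product of at most two primes -/
noncomputable def GH (δ c : ℝ) (N : ℕ) (h : ℤ) (W r : ℕ) : Finset ℕ :=
  (Icc 1 (3 * N)).filter (fun p : ℕ => N < p ∧ p ≡ r [MOD W] ∧ p.Prime ∧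
    Alm 2 ((N : ℝ) ^ (3 / 25 : ℝ)) (p + h) ∧
    ∀ z : ℤ, |(z : ℝ) - p| ≤ c * rankin N → z ≠ p → z ≠ p + h →
      ∃ q : ℕ, q.Prime ∧ (q : ℝ) ≤ (N : ℝ) ^ δ ∧ (q : ℤ) ∣ z)

open Classical in
theorem mem_GH (δ c : ℝ) (N : ℕ) (h : ℤ) (W r p : ℕ) : p ∈ GH δ c N h W r ↔ (1 ≤ p ∧ p ≤ 3 * N) ∧ N < p ∧
    p ≡ r [MOD W] ∧ p.Prime ∧ Alm 2 ((N : ℝ) ^ (3 / 25 : ℝ)) (p + h) ∧
    ∀ z : ℤ, |(z : ℝ) - p| ≤ c * rankin N → z ≠ p → z ≠ p + h →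
      ∃ q : ℕ, q.Prime ∧ (q : ℝ) ≤ (N : ℝ) ^ δ ∧ (q : ℤ) ∣ z := by
  unfold GH
  rw [mem_filter, mem_Icc]

theorem adm_h (h : ℤ) (h2 : 2 ∣ h) (p : ℕ) (hp : p.Prime) :
    ∃ a : ℤ, ¬ (p : ℤ) ∣ a ∧ ¬ (p : ℤ) ∣ a + h := by
  have hp1 : ¬ (p : ℤ) ∣ 1 := by
    intro h
    have := Int.natAbs_dvd_natAbs.2 h
    simp at this
    exact hp.one_lt.ne' this
  by_cases h' : (p : ℤ) ∣ 1 + h
  · refine ⟨-1, fun h' => hp1 ((dvd_neg).1 h'), fun h'' => ?_⟩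
    have h3 : (p : ℤ) ∣ 2 := by
      have h4 := dvd_sub h' h''
      have e : 1 + h - (-1 + h) = 2 := by ring
      rwa [e] at h4
    have h5 : p ∣ 2 := by exact_mod_cast h3
    have h6 : p = 2 := (Nat.prime_dvd_prime_iff_eq hp Nat.prime_two).1 h5
    rw [h6] at h'
    push_cast at h'
    omega
  · exact ⟨1, hp1, h'⟩

theorem gapAP (δ : ℝ) (hδ : 0 < δ) : ∃ c : ℝ, 0 < c ∧ ∃ ρ : ℝ, 0 < ρ ∧ ∃ W r : ℕ → ℤ → ℕ,
    ∀ (K : ℕ) (η : ℝ), 0 < η → ∃ B N₀ : ℕ, ∀ N : ℕ, N₀ ≤ N → ∀ h : ℤ, 2 ∣ h → h ≠ 0 → |(h : ℝ)| ≤ N / 1000000 →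
      0 < W N h ∧ (W N h : ℝ) ≤ (N : ℝ) ^ (1 / 700 : ℝ) ∧
      ρ * (N / W N h * (W N h / ((W N h).totient * Real.log N)) ^ 2) ≤ ((GH δ c N h (W N h) (r N h)).card : ℝ) ∧
      ∀ U ⊆ GH δ c N h (W N h) (r N h), η * ((GH δ c N h (W N h) (r N h)).card : ℝ) ≤ (U.card : ℝ) →
        ∃ d : ℕ, 1 ≤ d ∧ (d : ℝ) ≤ (Real.log N) ^ B ∧
          (N : ℝ) ^ (49 / 50 : ℝ) ≤ ((U.filter (fun p => ∀ j ≤ K, p + j * (W N h * d) ∈ U)).card : ℝ) := by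
  obtain ⟨c, hc, ε₁, hε, hε4, hεδ, ρ, hρ, H1⟩ := sieveK 1 le_rfl δ hδ
  have stage : ∃ N₁ : ℕ, ∀ (N : ℕ) (h : ℤ), N₁ ≤ N → 2 ∣ h → h ≠ 0 → |(h : ℝ)| ≤ N / 1000000 → ∃ W r : ℕ,
      0 < W ∧ (W : ℝ) ≤ (N : ℝ) ^ (1 / 700 : ℝ) ∧
      (N : ℝ) ^ (199 / 200 : ℝ) ≤ ((GH δ c N h W r).card : ℝ) ∧
      ρ * Ex (ε₁ / 3) (N : ℝ) W (fun _ : Fin 1 => h) ≤ ((GH δ c N h W r).card : ℝ) ∧
      ρ * (N / W * (W / (W.totient * Real.log N)) ^ 2) ≤ ((GH δ c N h W r).card : ℝ) := by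
    obtain ⟨N₁, hN₁⟩ := eventually_atTop.1 (tendsto_natCast_atTop_atTop.eventually
      (H1.and (RR_eq.and (eventually_ge_atTop (1 : ℝ)))))
    refine ⟨N₁, fun N h hN h2 h0 hh => ?_⟩
    obtain ⟨g1, g2, g3⟩ := hN₁ N hN
    have hN0 : (0 : ℝ) < N := by linarith
    obtain ⟨W, r, hW, hWX, T, hT, hTbig, hTlow, hTord⟩ := g1 (fun _ => h) (fun p hp => by
        obtain ⟨a, h3, h4⟩ := adm_h h h2 p hp
        exact ⟨a, h3, fun _ => h4⟩) (fun _ => by linarith) 0 (HPs_small N g3 h h0 hh)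
    have h3N : ⌊3 * (N : ℝ)⌋₊ = 3 * N := by
      have : (3 * (N : ℝ)) = ((3 * N : ℕ) : ℝ) := by push_cast; ring
      rw [this, Nat.floor_natCast]
    have hsub : T ⊆ GH δ c N h W r := by
      intro p hp
      obtain ⟨hpr, hp2, hp3, hp4, hp5, -, hp6⟩ := hT p hp
      rw [h3N] at hp2
      rw [mem_GH]
      refine ⟨⟨hp4.one_lt.le, hp2⟩, by exact_mod_cast hp3, hpr, hp4, ⟨hp5.1, ?_⟩, ?_⟩
      · intro q hq hqd
        have h7 := hp5.2 q hq ((dvd_natAbs_iff q _).2 hqd)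
        have e : (3 / 25 : ℝ) = 12 / 100 := by norm_num
        rw [e]
        exact h7
      · intro z hz1 hz2 hz3
        obtain ⟨q, hq1, hq2, hq3⟩ := hp6 (z - p) (by push_cast; rw [g2]; exact hz1) (sub_ne_zero.2 hz2) (by
          intro _ h4
          apply hz3
          linarith)
        refine ⟨q, hq1, hq2.trans ?_, ?_⟩
        · exact Real.rpow_le_rpow_of_exponent_le g3 (by linarith)
        · have : (p : ℤ) + (z - p) = z := by ring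
          rwa [this] at hq3
    have hcard : (T.card : ℝ) ≤ ((GH δ c N h W r).card : ℝ) := by exact_mod_cast card_le_card hsub
    have hTord := hTord 2 (by norm_num) le_rfl (fun p hp => by
      refine (Zx_props _ p hp ?_).1
      obtain ⟨a, h3, h4⟩ := adm_h h h2 p hp
      exact ⟨a, h3, fun _ => h4⟩)
    exact ⟨W, r, hW, hWX.trans (Real.rpow_le_rpow_of_exponent_le g3 (by norm_num)), hTbig.trans hcard,
      hTlow.trans hcard, hTord.trans hcard⟩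
  obtain ⟨N₁, stage⟩ := stage
  choose! W r hWr using stage
  refine ⟨c, hc, ρ, hρ, W, r, fun K η hη => ?_⟩
  obtain ⟨B, H3⟩ := engine K 2 (2 * ε₁ / 5) (9 * ε₁ / 25) (ρ * η) (by positivity) (by linarith) (by positivity)
  obtain ⟨N₂, hN₂⟩ := eventually_atTop.1 (tendsto_natCast_atTop_atTop.eventually ((H3.and (pow_scale 1 (ε₁ / 3)
    (9 * ε₁ / 25) (by norm_num) (by linarith))).and ((pow_scale2 1 (1 / η) (497 / 500) (199 / 200) (by norm_num)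
    (by norm_num)).and (eventually_gt_atTop (1 : ℝ)))))
  refine ⟨B, max N₁ N₂, fun N hN h h2 h0 hh => ?_⟩
  obtain ⟨g1, g2, g3, g4, g5⟩ := hWr N h ((le_max_left _ _).trans hN) h2 h0 hh
  obtain ⟨⟨k1, k2⟩, k3, k6⟩ := hN₂ N ((le_max_right _ _).trans hN)
  rw [one_mul] at k2 k3
  have hN0 : (0 : ℝ) < N := by linarith
  set G := GH δ c N h (W N h) (r N h) with hG
  refine ⟨g1, g2, g5, fun U hU hUc => ?_⟩
  obtain ⟨d, hd1, hd2, hd3⟩ := k1 (W N h) (r N h) g1 (g2.trans (Real.rpow_le_rpow_of_exponent_le k6.le (by norm_num)))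
    (Zx (fun _ : Fin 1 => h)) (fun p hp _ _ =>
      Zx_props _ p hp (by
        obtain ⟨a, h3, h4⟩ := adm_h h h2 p hp
        exact ⟨a, h3, fun _ => h4⟩)) U (by
    intro n hn
    have hnG := hU hn
    rw [hG, mem_GH] at hnG
    obtain ⟨⟨m1, m2⟩, m3, m4, m5, m6, m7⟩ := hnG
    have h3r : (n : ℝ) ≤ 3 * N := by exact_mod_cast m2
    have h4r : (N : ℝ) < n := by exact_mod_cast m3
    refine ⟨m4, Nat.le_floor (by linarith), h4r, fun p hp _ hpX hmem => ?_⟩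
    rcases (mem_Zx _ p n hp.pos).1 hmem with h | ⟨j, h⟩
    · have h5 : p = n := (Nat.prime_dvd_prime_iff_eq hp m5).1 h
      have h6 : (N : ℝ) ^ (2 * ε₁ / 5) ≤ N := by
        calc (N : ℝ) ^ (2 * ε₁ / 5) ≤ (N : ℝ) ^ (1 : ℝ) := Real.rpow_le_rpow_of_exponent_le k6.le (by linarith)
          _ = N := Real.rpow_one _
      rw [h5] at hpX
      linarith
    · have h6 := m6.2 p hp h
      have h7 : (N : ℝ) ^ (2 * ε₁ / 5) < (N : ℝ) ^ (3 / 25 : ℝ) :=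
        Real.rpow_lt_rpow_of_exponent_lt k6 (by linarith)
      linarith) (by
    refine le_trans ?_ hUc
    have h5 : η * (1 / η * (N : ℝ) ^ (497 / 500 : ℝ)) ≤ η * (G.card : ℝ) :=
      mul_le_mul_of_nonneg_left (k3.trans g3) hη.le
    have e : η * (1 / η * (N : ℝ) ^ (497 / 500 : ℝ)) = (N : ℝ) ^ (497 / 500 : ℝ) := by field_simp
    rwa [e] at h5) (by
    refine le_trans ?_ hUc
    have h5 := Ex_le (ε₁ / 3) (9 * ε₁ / 25) (N : ℝ) N hN0 le_rfl k2 (W N h) (fun _ : Fin 1 => h) (fun p hp => by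
        obtain ⟨a, h3, h4⟩ := adm_h h h2 p hp
        exact ⟨a, h3, fun _ => h4⟩)
    calc ρ * η * (N / (W N h) * ∏ p ∈ Pf (W N h) ⌊(N : ℝ) ^ (9 * ε₁ / 25)⌋₊,
          (1 - ((Zx (fun _ : Fin 1 => h) p).card : ℝ) / p)) =
        η * (ρ * Ex (9 * ε₁ / 25) N (W N h) (fun _ : Fin 1 => h)) := by unfold Ex; ring
      _ ≤ η * (ρ * Ex (ε₁ / 3) N (W N h) (fun _ : Fin 1 => h)) := by gcongr
      _ ≤ η * (G.card : ℝ) := mul_le_mul_of_nonneg_left g4 hη.le)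
  refine ⟨d, hd1, hd2, le_trans ?_ hd3⟩
  exact Real.rpow_le_rpow_of_exponent_le k6.le (by norm_num)

end Pool.Agent.J4H73.AQ
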