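import Pool.Agent.J4H73.AQ.Conv

/-! The order of magnitude of the expected number, from below. -/

set_option autoImplicit false
set_option maxHeartbeats 4000000

open Finset Filter

namespace Pool.Agent.J4H73.AQ

open Pool.Agent.H378R2 Pool.Agent.H378R2.LSBV Pool.Agent.N610.AP Pool.Agent.Y882
open Pool.Agent.J4H73.BV Pool.Agent.J4H73.CH Pool.Agent.J4H73.CG Pool.Agent.J4H73.KT
open Pool.Agent

/-- the expected order of magnitude -/
noncomputable def Ex {k : ℕ} (κ X : ℝ) (W : ℕ) (x : Fin k → ℤ) : ℝ :=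
  X / W * ∏ p ∈ Pf W ⌊X ^ κ⌋₊, (1 - ((Zx x p).card : ℝ) / p)

theorem pow_quad (u : ℝ) (hu0 : 0 ≤ u) (hu1 : u ≤ 1) (m : ℕ) : (1 - u) ^ m ≤ 1 - m * u + (m : ℝ) ^ 2 * u ^ 2 / 2 := by
  induction m with
  | zero => simp
  | succ m ih =>
    have h1 : (1 - u) ^ (m + 1) = (1 - u) ^ m * (1 - u) := pow_succ _ _
    have h2 : (1 - u) ^ m * (1 - u) ≤ (1 - m * u + (m : ℝ) ^ 2 * u ^ 2 / 2) * (1 - u) :=
      mul_le_mul_of_nonneg_right ih (by linarith)
    rw [h1]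
    refine h2.trans ?_
    push_cast
    have hm : (0 : ℝ) ≤ m := Nat.cast_nonneg m
    have h3 : 0 ≤ (m : ℝ) ^ 2 * u ^ 3 / 2 := by positivity
    have h4 : 0 ≤ u ^ 2 := by positivity
    nlinarith

theorem fac_low (m : ℕ) (hm : 1 ≤ m) (p : ℕ) (hp : p.Prime) (v : ℕ) (hv : v ≤ m) (hvp : v < p) :
    (if p ≤ 2 * m then 1 / (2 * (m : ℝ)) else 1) * Real.exp (-(2 * (m : ℝ) ^ 2 * (1 / (p : ℝ) ^ 2))) *
      (1 - 1 / (p : ℝ)) ^ m ≤ 1 - (v : ℝ) / p := by
  have hp0 : (0 : ℝ) < p := by exact_mod_cast hp.pos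
  have hp2 : (2 : ℝ) ≤ p := by exact_mod_cast hp.two_le
  have hm0 : (1 : ℝ) ≤ m := by exact_mod_cast hm
  have hf := fac01 p hp
  have hexp1 : Real.exp (-(2 * (m : ℝ) ^ 2 * (1 / (p : ℝ) ^ 2))) ≤ 1 := by
    rw [Real.exp_le_one_iff]
    have : 0 ≤ 2 * (m : ℝ) ^ 2 * (1 / (p : ℝ) ^ 2) := by positivity
    linarith
  have hexp0 := (Real.exp_pos (-(2 * (m : ℝ) ^ 2 * (1 / (p : ℝ) ^ 2)))).le
  have hpow1 : (1 - 1 / (p : ℝ)) ^ m ≤ 1 := pow_le_one₀ hf.1 hf.2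
  have hpow0 : 0 ≤ (1 - 1 / (p : ℝ)) ^ m := pow_nonneg hf.1 m
  split_ifs with h
  · have h1 : (v : ℝ) / p ≤ 1 - 1 / p := by
      rw [div_le_iff₀ hp0]
      have h2 : (v : ℝ) + 1 ≤ p := by exact_mod_cast hvp
      have h3 : (1 - 1 / (p : ℝ)) * p = p - 1 := by field_simp
      rw [h3]
      linarith
    have h4 : 1 / (2 * (m : ℝ)) ≤ 1 / p := by
      apply one_div_le_one_div_of_le hp0
      exact_mod_cast h
    have h5 : 0 ≤ 1 / (2 * (m : ℝ)) := by positivity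
    calc 1 / (2 * (m : ℝ)) * Real.exp (-(2 * (m : ℝ) ^ 2 * (1 / (p : ℝ) ^ 2))) * (1 - 1 / (p : ℝ)) ^ m ≤
        1 / (2 * (m : ℝ)) * 1 * 1 := by gcongr
      _ = 1 / (2 * (m : ℝ)) := by ring
      _ ≤ _ := by linarith
  · push Not at h
    have hpm : 2 * (m : ℝ) ≤ p := by
      have : 2 * m ≤ p := h.le
      exact_mod_cast this
    have hu0 : 0 ≤ 1 / (p : ℝ) := by positivity
    have hu1 : 1 / (p : ℝ) ≤ 1 := by
      rw [div_le_one hp0]
      linarith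
    have hq := pow_quad (1 / (p : ℝ)) hu0 hu1 m
    set a : ℝ := (m : ℝ) / p with ha
    have ha2 : a ≤ 1 / 2 := by
      rw [ha, div_le_iff₀ hp0]
      linarith
    have ha0 : 0 ≤ a := by positivity
    have hq' : (1 - 1 / (p : ℝ)) ^ m ≤ 1 - a + a ^ 2 / 2 := by
      have e : 1 - (m : ℝ) * (1 / p) + (m : ℝ) ^ 2 * (1 / (p : ℝ)) ^ 2 / 2 = 1 - a + a ^ 2 / 2 := by
        rw [ha]
        field_simp
      rwa [e] at hq
    have hexp : Real.exp (-(2 * (m : ℝ) ^ 2 * (1 / (p : ℝ) ^ 2))) ≤ 1 - a ^ 2 := by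
      have e : 2 * (m : ℝ) ^ 2 * (1 / (p : ℝ) ^ 2) = 2 * a ^ 2 := by
        rw [ha]
        field_simp
      rw [e]
      exact Pool.Agent.N610.AP.exp_le_one_sub (by positivity) (by nlinarith)
    have hva : (v : ℝ) / p ≤ a := by
      rw [ha]
      have : (v : ℝ) ≤ m := by exact_mod_cast hv
      gcongr
    rw [one_mul]
    have hq0 : 0 ≤ 1 - a + a ^ 2 / 2 := by nlinarith
    have h1a : 0 ≤ 1 - a ^ 2 := by nlinarith
    calc Real.exp (-(2 * (m : ℝ) ^ 2 * (1 / (p : ℝ) ^ 2))) * (1 - 1 / (p : ℝ)) ^ m ≤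
        (1 - a ^ 2) * (1 - a + a ^ 2 / 2) := mul_le_mul hexp hq' hpow0 h1a
      _ ≤ 1 - a := by nlinarith [mul_nonneg ha0 ha0, mul_nonneg (mul_nonneg ha0 ha0) ha0]
      _ ≤ _ := by linarith

theorem sum_inv_sq (y : ℕ) : ∑ n ∈ Icc 1 y, 1 / (n : ℝ) ^ 2 ≤ 2 := by
  have h : ∀ y : ℕ, 1 ≤ y → ∑ n ∈ Icc 1 y, 1 / (n : ℝ) ^ 2 ≤ 2 - 1 / (y : ℝ) := by
    intro y hy
    induction y, hy using Nat.le_induction with
    | base => norm_num
    | succ y hy ih =>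
      rw [sum_Icc_succ_top (by omega)]
      have hy0 : (0 : ℝ) < y := by exact_mod_cast hy
      have h1 : 1 / ((y + 1 : ℕ) : ℝ) ^ 2 ≤ 1 / y - 1 / ((y + 1 : ℕ) : ℝ) := by
        push_cast
        rw [div_sub_div _ _ hy0.ne' (by positivity), div_le_div_iff₀ (by positivity) (by positivity)]
        nlinarith
      linarith
  rcases Nat.eq_zero_or_pos y with h0 | h0
  · rw [h0]
    simp
  · have h1 := h y h0
    have h2 : 0 ≤ 1 / (y : ℝ) := by positivity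
    linarith

theorem Ex_lower1 (k m : ℕ) (hm1 : 1 ≤ m) (κ : ℝ) (hκ : 0 < κ) (hκ1 : κ ≤ 1) : ∃ c : ℝ, 0 < c ∧ ∀ᶠ X : ℝ in atTop,
    ∀ W : ℕ, 0 < W → (∀ p : ℕ, p.Prime → p ∣ W → (p : ℝ) ≤ Real.log X) → ∀ x : Fin k → ℤ,
    (∀ p : ℕ, p.Prime → ∃ a : ℤ, ¬ (p : ℤ) ∣ a ∧ ∀ j, ¬ (p : ℤ) ∣ a + x j) →
    (∀ p : ℕ, p.Prime → (Zx x p).card ≤ m) →
    c * (X / W * (W / (W.totient * Real.log X)) ^ m) ≤ Ex κ X W x := by
  classical
  obtain ⟨c₁, c₂, hc₁, hc12, hV⟩ := Pool.Agent.H318R2.Cr.cz_bounds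
  have hmr : (1 : ℝ) ≤ m := by exact_mod_cast hm1
  set c0 : ℝ := (1 / (2 * (m : ℝ))) ^ (2 * m) * Real.exp (-(4 * (m : ℝ) ^ 2)) with hc0
  have hc00 : 0 < c0 := by positivity
  refine ⟨c0 * c₁ ^ m, by positivity, ?_⟩
  filter_upwards [(tendsto_rpow_atTop hκ).eventually_ge_atTop 2, eventually_ge_atTop 2,
    Real.tendsto_log_atTop.eventually_ge_atTop 1,
    Pool.Agent.H398R2.BV.ev_log 1 1 κ hκ] with X hX2 hX hL1 hLκ
  intro W hW hWp x hadm hcm
  set L := Real.log X with hL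
  have hX0 : 0 < X := by linarith
  have hX1 : 1 ≤ X := by linarith
  have hL0 : 0 < L := by linarith
  set y := ⌊X ^ κ⌋₊ with hy
  have hy2 : 2 ≤ y := Nat.le_floor (by push_cast; exact hX2)
  have hyr : (2 : ℝ) ≤ y := by exact_mod_cast hy2
  have hylog : Real.log y ≤ L := by
    have h1 : (y : ℝ) ≤ X ^ κ := Nat.floor_le (by positivity)
    have h2 : X ^ κ ≤ X := by
      calc X ^ κ ≤ X ^ (1 : ℝ) := Real.rpow_le_rpow_of_exponent_le hX1 hκ1
        _ = X := Real.rpow_one X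
    exact Real.log_le_log (by linarith) (h1.trans h2)
  have hlogy0 : 0 < Real.log y := Real.log_pos (by linarith)
  have hWy : ∀ p : ℕ, p.Prime → p ∣ W → p ≤ y := by
    intro p hp hpW
    apply Nat.le_floor
    rw [pow_one, one_mul] at hLκ
    exact (hWp p hp hpW).trans hLκ
  have hW0r : (0 : ℝ) < W := by exact_mod_cast hW
  have hφ0 : (0 : ℝ) < W.totient := by exact_mod_cast Nat.totient_pos.2 hW
  have hPfp : ∀ p ∈ Pf W y, p.Prime ∧ ¬ p ∣ W ∧ p ≤ y := by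
    intro p hp
    unfold Pf at hp
    rw [mem_filter, mem_Icc] at hp
    exact ⟨hp.2.1, hp.2.2, hp.1.2⟩
  set A := ∏ p ∈ Pf W y, (1 - 1 / (p : ℝ)) with hA
  have hAge : c₁ * (W / (W.totient * L)) ≤ A := by
    have e1 := split_W W y hW hWy
    rw [← hA] at e1
    have e2 : A = Pool.Agent.H318R2.Cr.V y * (W / W.totient) := by
      field_simp
      linarith
    have h1 := (hV y hy2).1
    have h2 := Pool.Agent.H318R2.Cr.V_pos y
    have h3 : c₁ / L ≤ Pool.Agent.H318R2.Cr.V y := by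
      rw [div_le_iff₀ hL0]
      exact h1.trans (mul_le_mul_of_nonneg_left hylog h2.le)
    rw [e2]
    calc c₁ * (W / (W.totient * L)) = c₁ / L * (W / W.totient) := by field_simp
      _ ≤ _ := mul_le_mul_of_nonneg_right h3 (by positivity)
  -- the product
  have hprod : c0 * A ^ m ≤ ∏ p ∈ Pf W y, (1 - ((Zx x p).card : ℝ) / p) := by
    have h1 : ∏ p ∈ Pf W y, ((if p ≤ 2 * m then 1 / (2 * (m : ℝ)) else 1) *
        Real.exp (-(2 * (m : ℝ) ^ 2 * (1 / (p : ℝ) ^ 2))) * (1 - 1 / (p : ℝ)) ^ m) ≤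
        ∏ p ∈ Pf W y, (1 - ((Zx x p).card : ℝ) / p) := by
      apply Finset.prod_le_prod
      · intro p hp
        have := (fac01 p (hPfp p hp).1).1
        have h2 : (0 : ℝ) ≤ if p ≤ 2 * m then 1 / (2 * (m : ℝ)) else 1 := by
          split_ifs <;> positivity
        positivity
      · intro p hp
        have hz := Zx_props x p (hPfp p hp).1 (hadm p (hPfp p hp).1)
        exact fac_low m hm1 p (hPfp p hp).1 _ (hcm p (hPfp p hp).1) hz.2.1
    refine le_trans ?_ h1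
    rw [prod_mul_distrib, prod_mul_distrib, prod_pow, ← hA]
    have hA0 : 0 ≤ A := prod_nonneg fun p hp => (fac01 p (hPfp p hp).1).1
    apply mul_le_mul_of_nonneg_right _ (pow_nonneg hA0 m)
    rw [hc0]
    apply mul_le_mul _ _ (Real.exp_pos _).le _
    · rw [prod_ite, prod_const_one, mul_one, prod_const]
      have h2 : ((Pf W y).filter (fun p => p ≤ 2 * m)).card ≤ 2 * m := by
        have h3 : (Pf W y).filter (fun p => p ≤ 2 * m) ⊆ Icc 1 (2 * m) := by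
          intro p hp
          rw [mem_filter] at hp
          rw [mem_Icc]
          exact ⟨(hPfp p hp.1).1.one_lt.le, hp.2⟩
        have h4 := card_le_card h3
        rwa [Nat.card_Icc, Nat.add_sub_cancel] at h4
      apply pow_le_pow_of_le_one (by positivity) _ h2
      rw [div_le_one (by positivity)]
      linarith
    · rw [← Real.exp_sum]
      apply Real.exp_le_exp.2
      rw [sum_neg_distrib, ← mul_sum]
      have h2 : ∑ p ∈ Pf W y, 1 / (p : ℝ) ^ 2 ≤ 2 := by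
        refine le_trans ?_ (sum_inv_sq y)
        apply sum_le_sum_of_subset_of_nonneg
        · unfold Pf
          exact filter_subset _ _
        · intro _ _ _
          positivity
      have h3 : 0 ≤ 2 * (m : ℝ) ^ 2 := by positivity
      nlinarith
    · apply prod_nonneg
      intro p _
      split_ifs <;> positivity
  unfold Ex
  have hc₁0 : 0 ≤ c₁ * (W / (W.totient * L)) := by positivity
  calc c0 * c₁ ^ m * (X / W * (W / (W.totient * L)) ^ m) =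
      X / W * (c0 * (c₁ * (W / (W.totient * L))) ^ m) := by rw [mul_pow]; ring
    _ ≤ X / W * (c0 * A ^ m) := by gcongr
    _ ≤ _ := mul_le_mul_of_nonneg_left hprod (by positivity)

/-- **The expected number, from below.** -/
theorem Ex_lower (k : ℕ) (κ : ℝ) (hκ : 0 < κ) (hκ1 : κ ≤ 1) (M : ℕ) : ∃ c : ℝ, 0 < c ∧ ∀ᶠ X : ℝ in atTop,
    ∀ W : ℕ, 0 < W → (∀ p : ℕ, p.Prime → p ∣ W → (p : ℝ) ≤ Real.log X) → ∀ x : Fin k → ℤ,
    (∀ p : ℕ, p.Prime → ∃ a : ℤ, ¬ (p : ℤ) ∣ a ∧ ∀ j, ¬ (p : ℤ) ∣ a + x j) → ∀ m : ℕ, 1 ≤ m → m ≤ M →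
    (∀ p : ℕ, p.Prime → (Zx x p).card ≤ m) →
    c * (X / W * (W / (W.totient * Real.log X)) ^ m) ≤ Ex κ X W x := by
  induction M with
  | zero => exact ⟨1, one_pos, Filter.Eventually.of_forall fun X W _ _ x _ m h1 h2 => by omega⟩
  | succ M ih =>
    obtain ⟨c, hc, H⟩ := ih
    obtain ⟨c', hc', H'⟩ := Ex_lower1 k (M + 1) (by omega) κ hκ hκ1
    refine ⟨min c c', lt_min hc hc', ?_⟩
    filter_upwards [H, H', eventually_gt_atTop 0, Real.tendsto_log_atTop.eventually_gt_atTop 0] with X H H' hX hL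
    intro W hW hWp x hadm m hm1 hmM hcm
    have h0 : 0 ≤ X / W * (W / (W.totient * Real.log X)) ^ m := by positivity
    by_cases h : m ≤ M
    · exact (mul_le_mul_of_nonneg_right (min_le_left _ _) h0).trans (H W hW hWp x hadm m hm1 h hcm)
    · have e : m = M + 1 := by omega
      rw [e] at hcm h0 ⊢
      exact (mul_le_mul_of_nonneg_right (min_le_right _ _) h0).trans (H' W hW hWp x hadm hcm)

end Pool.Agent.J4H73.AQ
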