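import Pool.Agent.J4H73.AQ.Gb

/-! The form for admissible sets. -/

set_option autoImplicit false
set_option maxHeartbeats 4000000

open Finset Filter

namespace Pool.Agent.J4H73.AQ

open Pool.Agent.J4H73.CG Pool.Agent.J4H73.CP Pool.Agent.J4H73.KT Pool.Agent

/-- the conditions on the translate -/
def GoodN (θ c x : ℝ) (A : Finset ℤ) (a₁ a₂ : ℤ) (n : ℕ) : Prop :=
  0 < (n : ℤ) + a₁ ∧ ((n : ℤ) + a₁).natAbs.Prime ∧ Alm 2 (x ^ (1 / 9 : ℝ)) (n + a₂) ∧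
    (∀ a ∈ A, 0 < (n : ℤ) + a ∧ ∀ q : ℕ, q.Prime → (q : ℤ) ∣ n + a → x ^ θ < q) ∧
    ∀ z : ℤ, |(z : ℝ) - (n + a₁)| ≤ c * rankin x → (∀ a ∈ A, z ≠ n + a) →
      ∃ q : ℕ, q.Prime ∧ (q : ℝ) ≤ x ^ θ ∧ (q : ℤ) ∣ z

open Classical in
/-- the good translates in a class -/
noncomputable def GS (θ c x : ℝ) (A : Finset ℤ) (a₁ a₂ : ℤ) (W r : ℕ) : Finset ℕ :=
  (Icc 1 ⌊x⌋₊).filter (fun n : ℕ => x / 5 < n ∧ n ≡ r [MOD W] ∧ GoodN θ c x A a₁ a₂ n)

open Classical in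
theorem mem_GS (θ c x : ℝ) (A : Finset ℤ) (a₁ a₂ : ℤ) (W r n : ℕ) : n ∈ GS θ c x A a₁ a₂ W r ↔
    (1 ≤ n ∧ n ≤ ⌊x⌋₊) ∧ x / 5 < n ∧ n ≡ r [MOD W] ∧ GoodN θ c x A a₁ a₂ n := by
  unfold GS
  rw [mem_filter, mem_Icc]

theorem card_Zx_set {k : ℕ} (y : Fin k → ℤ) (A : Finset ℤ) (a₁ : ℤ) (ha₁ : a₁ ∈ A) (hy : ∀ j, y j + a₁ ∈ A) (p : ℕ)
    (hp : p.Prime) : (Zx y p).card ≤ A.card := by
  have h1 : Zx y p ⊆ A.image (fun a => rz (a - a₁) p) := by
    intro c hc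
    unfold Zx at hc
    rw [mem_image]
    rcases mem_insert.1 hc with h | h
    · refine ⟨a₁, ha₁, ?_⟩
      rw [h, sub_self]
      unfold rz
      simp
    · obtain ⟨_, j, hj⟩ := (mem_Rx y p c).1 h
      refine ⟨_, hy j, ?_⟩
      rw [← hj]
      congr 1
      ring
  exact (card_le_card h1).trans card_image_le

theorem setsAP (k : ℕ) (hk : 1 ≤ k) (δ : ℝ) (hδ : 0 < δ) : ∃ c : ℝ, 0 < c ∧ ∃ ρ : ℝ, 0 < ρ ∧
    ∃ θ : ℝ, 0 < θ ∧ θ ≤ δ ∧ ∃ W r : ℝ → Finset ℤ → ℤ → ℤ → ℕ, ∀ (K : ℕ) (η : ℝ), 0 < η →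
    ∃ (B : ℕ) (x₀ : ℝ), ∀ x : ℝ, x₀ ≤ x → ∀ A : Finset ℤ, A.card ≤ k + 1 →
      (∀ q : ℕ, q.Prime → ∃ r : ℤ, ∀ a ∈ A, ¬ (q : ℤ) ∣ r + a) → (∀ a ∈ A, |(a : ℝ)| ≤ x / 10000000) →
      ∀ a₁ ∈ A, ∀ a₂ ∈ A, a₁ ≠ a₂ →
        0 < W x A a₁ a₂ ∧ (W x A a₁ a₂ : ℝ) ≤ x ^ (1 / 700 : ℝ) ∧
        ρ * (x / W x A a₁ a₂ * (W x A a₁ a₂ / ((W x A a₁ a₂).totient * Real.log x)) ^ A.card) ≤
          ((GS θ c x A a₁ a₂ (W x A a₁ a₂) (r x A a₁ a₂)).card : ℝ) ∧
        ∀ U ⊆ GS θ c x A a₁ a₂ (W x A a₁ a₂) (r x A a₁ a₂),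
          η * ((GS θ c x A a₁ a₂ (W x A a₁ a₂) (r x A a₁ a₂)).card : ℝ) ≤ (U.card : ℝ) →
          ∃ d : ℕ, 1 ≤ d ∧ (d : ℝ) ≤ (Real.log x) ^ B ∧
            x ^ (49 / 50 : ℝ) ≤ ((U.filter (fun n => ∀ j ≤ K, n + j * (W x A a₁ a₂ * d) ∈ U)).card : ℝ) := by
  obtain ⟨c, hc, ε₁, hε, hε4, hεδ', ρ, hρ, H1⟩ := sieveK k hk (min δ 1) (lt_min hδ one_pos)
  have hεδ : ε₁ ≤ δ / 2 := by
    have := min_le_left δ 1
    linarith
  have hε1 : ε₁ ≤ 1 := by linarith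
  -- first stage
  have stage : ∃ x₁ : ℝ, ∀ x : ℝ, ∀ A : Finset ℤ, ∀ a₁ a₂ : ℤ, x₁ ≤ x → A.card ≤ k + 1 →
      (∀ q : ℕ, q.Prime → ∃ r : ℤ, ∀ a ∈ A, ¬ (q : ℤ) ∣ r + a) → (∀ a ∈ A, |(a : ℝ)| ≤ x / 10000000) →
      a₁ ∈ A → a₂ ∈ A → a₁ ≠ a₂ → ∃ (W r : ℕ) (y : Fin k → ℤ), (∀ j, y j + a₁ ∈ A) ∧
        (∀ p : ℕ, p.Prime → ∃ a : ℤ, ¬ (p : ℤ) ∣ a ∧ ∀ j, ¬ (p : ℤ) ∣ a + y j) ∧
        0 < W ∧ (W : ℝ) ≤ x ^ (1 / 700 : ℝ) ∧
        (x / 4) ^ (199 / 200 : ℝ) ≤ ((GS (4 / 5 * ε₁) (c / 2) x A a₁ a₂ W r).card : ℝ) ∧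
        ρ * Ex (ε₁ / 3) (x / 4) W y ≤ ((GS (4 / 5 * ε₁) (c / 2) x A a₁ a₂ W r).card : ℝ) ∧
        ρ / 4 * (x / W * (W / (W.totient * Real.log x)) ^ A.card) ≤
          ((GS (4 / 5 * ε₁) (c / 2) x A a₁ a₂ W r).card : ℝ) := by
    have evX : ∀ᶠ X : ℝ in atTop, (4 * X) ^ (1 / 9 : ℝ) ≤ X ^ (12 / 100 : ℝ) ∧
        (4 * X) ^ (4 / 5 * ε₁) < (⌊X⌋₊ : ℝ) ^ ε₁ := by
      filter_upwards [pow_scale 4 (1 / 9) (12 / 100) (by norm_num) (by norm_num),
        pow_scale 4 (4 / 5 * ε₁) (9 / 10 * ε₁) (by norm_num) (by linarith), eventually_ge_atTop 4,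
        (tendsto_rpow_atTop (show 0 < 1 / 10 * ε₁ by positivity)).eventually_gt_atTop ((2 : ℝ) ^ ε₁)] with X a2 a3 a4 a5
      refine ⟨a2, lt_of_le_of_lt a3 ?_⟩
      have hX0 : 0 < X := by linarith
      have hfl : X / 2 ≤ (⌊X⌋₊ : ℝ) := by
        have := Nat.lt_floor_add_one X
        linarith
      calc X ^ (9 / 10 * ε₁) < (X / 2) ^ ε₁ := by
            rw [Real.div_rpow hX0.le (by norm_num), lt_div_iff₀ (by positivity)]
            calc X ^ (9 / 10 * ε₁) * 2 ^ ε₁ < X ^ (9 / 10 * ε₁) * X ^ (1 / 10 * ε₁) :=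
                  mul_lt_mul_of_pos_left a5 (by positivity)
              _ = X ^ ε₁ := by rw [← Real.rpow_add hX0]; congr 1; ring
        _ ≤ (⌊X⌋₊ : ℝ) ^ ε₁ := Real.rpow_le_rpow (by linarith) hfl hε.le
    obtain ⟨X0, hX0⟩ := eventually_atTop.1 (((H1.and RR_eq).and (rankin_scale 4 (by norm_num))).and
      (evX.and (eventually_ge_atTop (10 : ℝ))))
    refine ⟨4 * X0, ?_⟩
    intro x A a₁ a₂ hx hA hadm hAx ha₁ ha₂ hne
    obtain ⟨X, hX⟩ : ∃ X : ℝ, X = x / 4 := ⟨_, rfl⟩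
    have hxX : x = 4 * X := by rw [hX]; ring
    obtain ⟨⟨⟨g1, g2⟩, g3, g4⟩, ⟨g6, g7⟩, g9⟩ := hX0 X (by linarith)
    rw [← hxX] at g4 g6 g7
    rw [← hX]
    have hXpos : 0 < X := by linarith
    have hX1 : 1 ≤ X := by linarith
    have hx0 : 0 < x := by linarith
    -- the tuple
    set B : Finset ℤ := (A.erase a₁).image (fun a => a - a₁) with hB
    have hBc : B.card ≤ k := by
      refine card_image_le.trans ?_
      rw [card_erase_of_mem ha₁]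
      omega
    have hb2 : a₂ - a₁ ∈ B := mem_image.2 ⟨a₂, mem_erase.2 ⟨fun h => hne h.symm, ha₂⟩, rfl⟩
    obtain ⟨y, hy1, hy2⟩ := enum_set k B hBc _ hb2
    obtain ⟨i0, hi0⟩ := hy2 _ hb2
    have hBA : ∀ j, y j + a₁ ∈ A ∧ y j + a₁ ≠ a₁ := by
      intro j
      obtain ⟨a, ha, hae⟩ := mem_image.1 (hy1 j)
      have e : y j + a₁ = a := by rw [← hae]; ring
      rw [e]
      exact ⟨(mem_erase.1 ha).2, (mem_erase.1 ha).1⟩
    have hAB : ∀ a ∈ A, a ≠ a₁ → ∃ j, y j = a - a₁ := fun a ha hne =>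
      hy2 _ (mem_image.2 ⟨a, mem_erase.2 ⟨hne, ha⟩, rfl⟩)
    have hdist : ∀ a ∈ A, |((a - a₁ : ℤ) : ℝ)| ≤ X / 1000000 := by
      intro a ha
      push_cast
      have h1 := hAx a ha
      have h2 := hAx a₁ ha₁
      have h3 := abs_sub (a : ℝ) a₁
      rw [hxX] at h1 h2
      linarith
    have hy9 : ∀ j, |(y j : ℝ)| ≤ 9 * X := by
      intro j
      have h1 := hdist _ (hBA j).1
      have e : y j + a₁ - a₁ = y j := by ring
      rw [e] at h1
      linarith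
    have hyadm : ∀ p : ℕ, p.Prime → ∃ a : ℤ, ¬ (p : ℤ) ∣ a ∧ ∀ j, ¬ (p : ℤ) ∣ a + y j := by
      intro p hp
      obtain ⟨r, hr⟩ := hadm p hp
      refine ⟨r + a₁, hr a₁ ha₁, fun j => ?_⟩
      have h1 := hr _ (hBA j).1
      have e : r + a₁ + y j = r + (y j + a₁) := by ring
      rw [e]
      exact h1
    have hHP : HPs (1 / 1000) (101 / 100000) X (y i0) := by
      apply HPs_small X (by linarith)
      · rw [hi0]
        exact sub_ne_zero.2 (fun h => hne h.symm)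
      · rw [hi0]
        exact hdist a₂ ha₂
    obtain ⟨W, r', hW, hWX, T, hT, hTbig, hTlow, hTord⟩ := g1 y hyadm hy9 i0 hHP
    obtain ⟨r, hr⟩ : ∃ r : ℕ, (r : ℤ) ≡ (r' : ℤ) - a₁ [ZMOD W] := by
      refine ⟨(((r' : ℤ) - a₁) % W).toNat, ?_⟩
      rw [Int.toNat_of_nonneg (Int.emod_nonneg _ (by exact_mod_cast hW.ne'))]
      exact Int.mod_modEq _ _
    have key : ∀ p ∈ T, 0 < (p : ℤ) - a₁ ∧ ((p : ℤ) - a₁).toNat ∈ GS (4 / 5 * ε₁) (c / 2) x A a₁ a₂ W r := by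
      intro p hp
      obtain ⟨hpr, hp2, hp3, hp4, hp5, hp6, hp7⟩ := hT p hp
      have hp3X : (p : ℝ) ≤ 3 * X := (Nat.le_floor_iff (by positivity)).1 hp2
      have hA1 := abs_le.1 (hAx a₁ ha₁)
      have hposR : (0 : ℝ) < (p : ℝ) - a₁ := by linarith
      have hpos : 0 < (p : ℤ) - a₁ := by exact_mod_cast hposR
      obtain ⟨n, hn⟩ : ∃ n : ℕ, n = ((p : ℤ) - a₁).toNat := ⟨_, rfl⟩
      have hnZ : (n : ℤ) = p - a₁ := by rw [hn]; exact Int.toNat_of_nonneg hpos.le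
      have hnR : (n : ℝ) = p - a₁ := by exact_mod_cast hnZ
      refine ⟨hpos, ?_⟩
      rw [← hn]
      have hna : ∀ a ∈ A, 0 < (n : ℤ) + a := by
        intro a ha
        have h1 := abs_le.1 (hdist a ha)
        push_cast at h1
        have h2 : (0 : ℝ) < (n : ℝ) + a := by
          rw [hnR]
          linarith
        exact_mod_cast h2
      rw [mem_GS]
      refine ⟨⟨?_, Nat.le_floor ?_⟩, ?_, ?_, hna a₁ ha₁, ?_, ⟨?_, ?_⟩, ?_, ?_⟩
      · have : (0 : ℝ) < n := by rw [hnR]; exact hposR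
        exact_mod_cast this
      · rw [hnR]; linarith
      · rw [hnR]; linarith
      · have h1 : (n : ℤ) ≡ r [ZMOD W] := by
          rw [hnZ]
          have h2 : (p : ℤ) ≡ r' [ZMOD W] := (Int.natCast_modEq_iff).2 hpr
          exact (h2.sub_right _).trans hr.symm
        exact (Int.natCast_modEq_iff).1 h1
      · have e : (n : ℤ) + a₁ = p := by rw [hnZ]; ring
        rw [e, Int.natAbs_natCast]
        exact hp4
      · have e : (n : ℤ) + a₂ = p + y i0 := by rw [hnZ, hi0]; ring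
        rw [e]
        exact hp5.1
      · intro q hq hqd
        have e : (n : ℤ) + a₂ = p + y i0 := by rw [hnZ, hi0]; ring
        rw [e] at hqd
        exact g6.trans (hp5.2 q hq ((dvd_natAbs_iff q _).2 hqd))
      · intro a ha
        refine ⟨hna a ha, fun q hq hqd => ?_⟩
        by_cases h : a = a₁
        · have e : (n : ℤ) + a = p := by rw [hnZ, h]; ring
          rw [e] at hqd
          have h1 : q ∣ p := by exact_mod_cast hqd
          have h2 : q = p := (Nat.prime_dvd_prime_iff_eq hq hp4).1 h1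
          rw [h2]
          refine lt_of_lt_of_le g7 ?_
          have h3 : (⌊X⌋₊ : ℝ) ≤ X := Nat.floor_le hXpos.le
          have h4 : (1 : ℝ) ≤ ⌊X⌋₊ := by
            have : 1 ≤ ⌊X⌋₊ := Nat.le_floor (by push_cast; linarith)
            exact_mod_cast this
          calc (⌊X⌋₊ : ℝ) ^ ε₁ ≤ (⌊X⌋₊ : ℝ) ^ (1 : ℝ) := Real.rpow_le_rpow_of_exponent_le h4 hε1
            _ = ⌊X⌋₊ := Real.rpow_one _
            _ ≤ p := by linarith
        · obtain ⟨j, hj⟩ := hAB a ha h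
          have e : (n : ℤ) + a = p + y j := by rw [hnZ, hj]; ring
          rw [e] at hqd
          exact lt_of_lt_of_le g7 (hp6 j q hq hqd)
      · intro z hz1 hz2
        obtain ⟨q, hq1, hq2, hq3⟩ := hp7 (z - p) (by
          push_cast
          have e : (n : ℝ) + a₁ = p := by rw [hnR]; ring
          rw [e] at hz1
          rw [g2]
          refine hz1.trans ?_
          calc c / 2 * rankin x ≤ c / 2 * (2 * rankin X) := mul_le_mul_of_nonneg_left g4 (by positivity)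
            _ = _ := by ring) (by
          intro h
          apply hz2 a₁ ha₁
          rw [hnZ]
          linarith) (by
          intro j h
          apply hz2 _ (hBA j).1
          rw [hnZ, ← h]
          ring)
        refine ⟨q, hq1, hq2.trans ?_, ?_⟩
        · calc X ^ (2 * (ε₁ / 3)) ≤ x ^ (2 * (ε₁ / 3)) := Real.rpow_le_rpow hXpos.le (by linarith) (by positivity)
            _ ≤ x ^ (4 / 5 * ε₁) := by
                apply Real.rpow_le_rpow_of_exponent_le (by linarith)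
                linarith
        · have : (p : ℤ) + (z - p) = z := by ring
          rwa [this] at hq3
    have hinj : Set.InjOn (fun p : ℕ => ((p : ℤ) - a₁).toNat) T := by
      intro p hp p' hp' h
      have h1 := (key p hp).1
      have h2 := (key p' hp').1
      have h3 : (((p : ℤ) - a₁).toNat : ℤ) = (((p' : ℤ) - a₁).toNat : ℤ) := by
        have h' : ((p : ℤ) - a₁).toNat = ((p' : ℤ) - a₁).toNat := h
        rw [h']
      rw [Int.toNat_of_nonneg h1.le, Int.toNat_of_nonneg h2.le] at h3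
      omega
    have hcard : (T.card : ℝ) ≤ ((GS (4 / 5 * ε₁) (c / 2) x A a₁ a₂ W r).card : ℝ) := by
      exact_mod_cast card_le_card_of_injOn _ (fun p hp => (key p (mem_coe.1 hp)).2) hinj
    have hW0r : (0 : ℝ) < W := by exact_mod_cast hW
    have hφ0 : (0 : ℝ) < W.totient := by exact_mod_cast Nat.totient_pos.2 hW
    have hlogX : 0 < Real.log X := Real.log_pos (by linarith)
    have hA1 : 1 ≤ A.card := card_pos.2 ⟨a₁, ha₁⟩
    have hTord := hTord A.card hA1 hA (card_Zx_set y A a₁ ha₁ (fun j => (hBA j).1))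
    refine ⟨W, r, y, fun j => (hBA j).1, hyadm, hW, hWX.trans ?_, hTbig.trans hcard, hTlow.trans hcard,
      le_trans ?_ (hTord.trans hcard)⟩
    · calc X ^ (7 / 5000 : ℝ) ≤ X ^ (1 / 700 : ℝ) := Real.rpow_le_rpow_of_exponent_le hX1 (by norm_num)
        _ ≤ x ^ (1 / 700 : ℝ) := Real.rpow_le_rpow hXpos.le (by linarith) (by norm_num)
    · have e1 : (W : ℝ) / (W.totient * Real.log x) ≤ W / (W.totient * Real.log X) := by
        apply div_le_div_of_nonneg_left hW0r.le (by positivity)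
        exact mul_le_mul_of_nonneg_left (Real.log_le_log hXpos (by linarith)) hφ0.le
      have hlogx : 0 ≤ Real.log x := Real.log_nonneg (by linarith)
      calc ρ / 4 * (x / W * (W / (W.totient * Real.log x)) ^ A.card) ≤
          ρ / 4 * ((4 * X) / W * (W / (W.totient * Real.log X)) ^ A.card) := by
            rw [hxX] at e1 hlogx ⊢
            gcongr
        _ = ρ * (X / W * (W / (W.totient * Real.log X)) ^ A.card) := by ring
  obtain ⟨x₁, stage⟩ := stage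
  choose! W r y hWr using stage
  refine ⟨c / 2, by positivity, ρ / 4, by positivity, 4 / 5 * ε₁, by positivity, by linarith, W, r,
    fun K η hη => ?_⟩
  -- second stage
  obtain ⟨B, H3⟩ := engine K (k + 1) (2 * ε₁ / 5) (9 * ε₁ / 25) (ρ * η) (by positivity) (by linarith) (by positivity)
  obtain ⟨X2, hX2⟩ := eventually_atTop.1 ((H3.and (pow_scale (3 / 2) (ε₁ / 3) (9 * ε₁ / 25) (by norm_num)
    (by linarith))).and ((pow_scale 6 (49 / 50) (99 / 100) (by norm_num) (by norm_num)).and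
    ((pow_scale 6 (1 / 700) (1 / 600) (by norm_num) (by norm_num)).and (eventually_gt_atTop (1 : ℝ)))))
  obtain ⟨X3, hX3⟩ := eventually_atTop.1
    (pow_scale2 (2 / 3) (1 / η) (497 / 500) (199 / 200) (by norm_num) (by norm_num))
  refine ⟨B, max x₁ (max (6 * X2) (4 * X3)), fun x hx A hA hadm hAx a₁ ha₁ a₂ ha₂ hne => ?_⟩
  have hx1 : x₁ ≤ x := (le_max_left _ _).trans hx
  have hx2 : 6 * X2 ≤ x := ((le_max_left _ _).trans (le_max_right _ _)).trans hx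
  have hx3 : 4 * X3 ≤ x := ((le_max_right _ _).trans (le_max_right _ _)).trans hx
  obtain ⟨g0, g00, g1, g2, g3, g4, g5⟩ := hWr x A a₁ a₂ hx1 hA hadm hAx ha₁ ha₂ hne
  set Wx := W x A a₁ a₂ with hWx
  set rx := r x A a₁ a₂ with hrx
  set yx := y x A a₁ a₂ with hyx
  obtain ⟨X, hX⟩ : ∃ X : ℝ, X = x / 4 := ⟨_, rfl⟩
  obtain ⟨X', hX'⟩ : ∃ X' : ℝ, X' = x / 6 := ⟨_, rfl⟩
  obtain ⟨⟨k1, k2⟩, k4, k5, k6⟩ := hX2 X' (by linarith)
  have l2 := hX3 X (by linarith)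
  have e1 : 3 / 2 * X' = X := by rw [hX, hX']; ring
  have e2 : 6 * X' = x := by rw [hX']; ring
  have e3 : 2 / 3 * X = X' := by rw [hX, hX']; ring
  rw [e1] at k2
  rw [e2] at k4 k5
  rw [e3] at l2
  rw [← hX] at g3 g4
  have hX'0 : 0 < X' := by linarith
  have hX'1 : 1 ≤ X' := k6.le
  have hx0 : 0 < x := by linarith
  set G := GS (4 / 5 * ε₁) (c / 2) x A a₁ a₂ Wx rx with hG
  refine ⟨g1, g2, g5, fun U hU hUc => ?_⟩
  -- the primes
  have hpos : ∀ n ∈ U, 0 < (n : ℤ) + a₁ := by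
    intro n hn
    have h1 := hU hn
    rw [hG, mem_GS] at h1
    exact h1.2.2.2.1
  set f : ℕ → ℕ := fun n => ((n : ℤ) + a₁).toNat with hf
  have hfZ : ∀ n ∈ U, ((f n : ℕ) : ℤ) = n + a₁ := fun n hn => Int.toNat_of_nonneg (hpos n hn).le
  have hfinj : Set.InjOn f U := by
    intro n hn n' hn' h
    have h1 := hfZ n hn
    have h2 := hfZ n' hn'
    have h3 : f n = f n' := h
    rw [h3] at h1
    omega
  set V := U.image f with hV
  have hVc : V.card = U.card := card_image_of_injOn hfinj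
  obtain ⟨b, hb⟩ : ∃ b : ℕ, (b : ℤ) ≡ (rx : ℤ) + a₁ [ZMOD Wx] := by
    refine ⟨(((rx : ℤ) + a₁) % Wx).toNat, ?_⟩
    rw [Int.toNat_of_nonneg (Int.emod_nonneg _ (by exact_mod_cast g1.ne'))]
    exact Int.mod_modEq _ _
  obtain ⟨d, hd1, hd2, hd3⟩ := k1 Wx b g1 (g2.trans k5) (Zx yx) (fun p hp _ _ => Zx_props _ p hp (g00 p hp)) V (by
    intro p' hp'
    obtain ⟨n, hn, rfl⟩ := mem_image.1 hp'
    have hnG := hU hn
    rw [hG, mem_GS] at hnG
    obtain ⟨⟨m1, m2⟩, m3, m4, m5, m6, m7, m8, m9⟩ := hnG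
    have hfn := hfZ n hn
    have hfR : ((f n : ℕ) : ℝ) = n + a₁ := by exact_mod_cast hfn
    have ha1 := abs_le.1 (hAx a₁ ha₁)
    have hnx : (n : ℝ) ≤ x := (Nat.le_floor_iff hx0.le).1 m2
    refine ⟨?_, Nat.le_floor ?_, ?_, fun p hp _ hpX hmem => ?_⟩
    · apply (Int.natCast_modEq_iff).1
      rw [hfn]
      exact (((Int.natCast_modEq_iff).2 m4).add_right a₁).trans hb.symm
    · rw [hfR]
      linarith
    · rw [hfR]
      linarith
    · have hfpr : (f n).Prime := by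
        have e : ((n : ℤ) + a₁).natAbs = f n := by rw [← hfn, Int.natAbs_natCast]
        rw [← e]
        exact m6
      rcases (mem_Zx _ p _ hp.pos).1 hmem with h | ⟨j, h⟩
      · have h5 : p = f n := (Nat.prime_dvd_prime_iff_eq hp hfpr).1 h
        have h6 : X' ^ (2 * ε₁ / 5) ≤ X' := by
          calc X' ^ (2 * ε₁ / 5) ≤ X' ^ (1 : ℝ) := Real.rpow_le_rpow_of_exponent_le hX'1 (by linarith)
            _ = X' := Real.rpow_one X'
        rw [h5, hfR] at hpX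
        linarith
      · rw [hfn] at h
        have h5 : (p : ℤ) ∣ n + (yx j + a₁) := by
          have e : (n : ℤ) + (yx j + a₁) = n + a₁ + yx j := by ring
          rw [e]
          exact h
        have h6 := (m8 _ (g0 j)).2 p hp h5
        have h7 : X' ^ (2 * ε₁ / 5) ≤ x ^ (4 / 5 * ε₁) := by
          calc X' ^ (2 * ε₁ / 5) ≤ x ^ (2 * ε₁ / 5) := Real.rpow_le_rpow hX'0.le (by linarith) (by positivity)
            _ ≤ x ^ (4 / 5 * ε₁) := Real.rpow_le_rpow_of_exponent_le (by linarith) (by linarith)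
        linarith) (by
    rw [hVc]
    refine le_trans ?_ hUc
    have h5 : η * (1 / η * X' ^ (497 / 500 : ℝ)) ≤ η * (G.card : ℝ) :=
      mul_le_mul_of_nonneg_left (l2.trans g3) hη.le
    have e : η * (1 / η * X' ^ (497 / 500 : ℝ)) = X' ^ (497 / 500 : ℝ) := by field_simp
    rwa [e] at h5) (by
    rw [hVc]
    refine le_trans ?_ hUc
    have h5 := Ex_le (ε₁ / 3) (9 * ε₁ / 25) X X' hX'0 (by rw [← e3]; linarith) k2 Wx yx g00
    calc ρ * η * (X' / Wx * ∏ p ∈ Pf Wx ⌊X' ^ (9 * ε₁ / 25)⌋₊, (1 - ((Zx yx p).card : ℝ) / p)) =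
        η * (ρ * Ex (9 * ε₁ / 25) X' Wx yx) := by unfold Ex; ring
      _ ≤ η * (ρ * Ex (ε₁ / 3) X Wx yx) := by gcongr
      _ ≤ η * (G.card : ℝ) := mul_le_mul_of_nonneg_left g4 hη.le)
  refine ⟨d, hd1, hd2.trans ?_, k4.trans (hd3.trans ?_)⟩
  · exact pow_le_pow_left₀ (Real.log_nonneg hX'1) (Real.log_le_log hX'0 (by linarith)) B
  · have hle : (V.filter (fun n => ∀ j ≤ K, n + j * (Wx * d) ∈ V)).card ≤
        (U.filter (fun n => ∀ j ≤ K, n + j * (Wx * d) ∈ U)).card := by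
      have hsub : V.filter (fun n => ∀ j ≤ K, n + j * (Wx * d) ∈ V) ⊆
          (U.filter (fun n => ∀ j ≤ K, n + j * (Wx * d) ∈ U)).image f := by
        intro v hv
        rw [mem_filter] at hv
        obtain ⟨n, hn, rfl⟩ := mem_image.1 hv.1
        refine mem_image.2 ⟨n, mem_filter.2 ⟨hn, fun j hj => ?_⟩, rfl⟩
        obtain ⟨n', hn', he⟩ := mem_image.1 (hv.2 j hj)
        have h1 := hfZ n hn
        have h2 := hfZ n' hn'
        have h3 : ((f n' : ℕ) : ℤ) = f n + j * (Wx * d) := by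
          rw [he]
          push_cast
          ring
        have h4 : (n' : ℤ) = ((n + j * (Wx * d) : ℕ) : ℤ) := by
          push_cast
          linarith
        have h5 : n' = n + j * (Wx * d) := by exact_mod_cast h4
        rw [← h5]
        exact hn'
      exact (card_le_card hsub).trans card_image_le
    exact_mod_cast hle

end Pool.Agent.J4H73.AQ
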